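import Pool.Agent.P.MP_d1c5a4_lc.Sip

/-! The approximation method with closures for monotone circuits. -/

namespace Pool.Agent.P.MP_d1c5a4_lc.NL

open Finset Classical

/-- Functions of sets. -/
abbrev MF (Ω : Type) : Type := Finset Ω → Prop

variable {Ω : Type}

/-- Monotone functions. -/
def Mo (f : MF Ω) : Prop := ∀ Y Y', Y ⊆ Y' → f Y → f Y'

/-- `g` is a monotone function of at most `w` members of `S`. -/
def Gt (w : ℕ) (S : Set (MF Ω)) (g : MF Ω) : Prop :=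
  ∃ Q : Finset (MF Ω), (∀ f ∈ Q, f ∈ S) ∧ Q.card ≤ w ∧
    ∀ Y Y', (∀ f ∈ Q, f Y → f Y') → g Y → g Y'

/-- The members of `S` are computed from `S₀` with `m` monotone gates of fan-in at most `w`. -/
def MS (w : ℕ) (S₀ : Set (MF Ω)) : ℕ → Set (MF Ω) → Prop
  | 0, S => S ⊆ S₀
  | m + 1, S => ∃ S' g, MS w S₀ m S' ∧ Gt w S' g ∧ S ⊆ insert g S'

section
variable {w m m' : ℕ} {S₀ S S' S₁ : Set (MF Ω)} {g : MF Ω}

theorem Gt.mono (h : Gt w S g) (h' : S ⊆ S') : Gt w S' g :=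
  let ⟨Q, a, b⟩ := h
  ⟨Q, fun f hf => h' (a f hf), b⟩

theorem Gt.cst (p : Prop) : Gt w S fun _ => p := ⟨∅, by simp, by simp, fun _ _ _ h => h⟩

theorem MS.sub (h : MS w S₀ m S) (h' : S' ⊆ S) : MS w S₀ m S' := by
  cases m with
  | zero => exact h'.trans h
  | succ m =>
    obtain ⟨A, g, a, b, c⟩ := h
    exact ⟨A, g, a, b, h'.trans c⟩

theorem MS.ins (h : MS w S₀ m S) (h' : Gt w S g) : MS w S₀ (m + 1) (insert g S) :=
  ⟨S, g, h, h', subset_rfl⟩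

theorem MS.le (h : MS w S₀ m S) (h' : m ≤ m') : MS w S₀ m' S := by
  induction h' with
  | refl => exact h
  | step _ ih => exact (ih.ins (Gt.cst True)).sub (Set.subset_insert _ _)

theorem MS.add (h : MS w S₀ m S) (h' : MS w S₁ m' S') (h1 : S₁ ⊆ S) :
    MS w S₀ (m + m') (S ∪ S') := by
  induction m' generalizing S' with
  | zero => exact h.sub (Set.union_subset subset_rfl (Set.Subset.trans h' h1))
  | succ m' ih =>
    obtain ⟨A, g, a, b, c⟩ := h'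
    refine ⟨_, g, ih a, b.mono Set.subset_union_right, ?_⟩
    rintro f (hf | hf)
    · exact Or.inr (Or.inl hf)
    · exact (c hf).imp_right Or.inr

theorem MS.base (h : MS w S₀ m S) : MS w S₀ m (S₀ ∪ S) := by
  have := MS.add (m := 0) (S₀ := S₀) (S := S₀) subset_rfl h subset_rfl
  rwa [zero_add] at this

theorem MS.union (h : MS w S₀ m S) (h' : MS w S₀ m' S') : MS w S₀ (m + m') (S ∪ S') :=
  (h.base.add h' Set.subset_union_left).sub (Set.union_subset_union_left _ Set.subset_union_right)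

theorem MS.many {ι : Type} (T : Finset ι) {A : ι → Set (MF Ω)} (h : ∀ i ∈ T, MS w S₀ m (A i)) :
    MS w S₀ (T.card * m) {f | ∃ i ∈ T, f ∈ A i} := by
  induction T using Finset.induction_on with
  | empty => exact MS.le (m := 0) (fun f hf => by simp at hf) (Nat.zero_le _)
  | insert i T hi ih =>
    rw [card_insert_of_notMem hi, add_mul, one_mul]
    refine ((ih fun j hj => h j (mem_insert_of_mem hj)).union (h i (mem_insert_self _ _))).sub ?_
    rintro f ⟨j, hj, hf⟩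
    rcases mem_insert.1 hj with rfl | hj
    · exact Or.inr hf
    · exact Or.inl ⟨j, hj, hf⟩

end

/-- The variables. -/
def Vr (Ω : Type) : Set (MF Ω) := {f | ∃ p, f = fun Y => p ∈ Y}

theorem MS.mo {w m : ℕ} {S : Set (MF Ω)} (h : MS w (Vr Ω) m S) : ∀ f ∈ S, Mo f := by
  induction m generalizing S with
  | zero =>
    intro f hf
    obtain ⟨p, rfl⟩ := h hf
    exact fun _ _ h h' => h h'
  | succ m ih =>
    obtain ⟨A, g, a, ⟨Q, b1, -, b2⟩, c⟩ := h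
    intro f hf
    rcases c hf with rfl | hf
    · exact fun Y Y' h => b2 Y Y' fun f hf => ih a f (b1 f hf) Y Y' h
    · exact ih a f hf

variable [Fintype Ω] [DecidableEq Ω] {Q : ℕ}

theorem small_card (s : ℕ) : (univ.filter fun A : Finset Ω => A.card ≤ s).card ≤
    (s + 1) * (Fintype.card Ω + 1) ^ s := by
  refine (card_le_card (t := (range (s + 1)).biUnion fun i => powersetCard i univ)
    fun A hA => ?_).trans ((card_biUnion_le_card_mul _ _ ((Fintype.card Ω + 1) ^ s)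
      fun i hi => ?_).trans (by rw [card_range]))
  · exact mem_biUnion.2 ⟨A.card, mem_range.2 (Nat.lt_succ_of_le (mem_filter.1 hA).2),
      mem_powersetCard.2 ⟨subset_univ _, rfl⟩⟩
  · rw [card_powersetCard, card_univ]
    exact (Nat.choose_le_pow _ _).trans ((Nat.pow_le_pow_left (Nat.le_succ _) _).trans
      (Nat.pow_le_pow_right (Nat.succ_pos _) (Nat.le_of_lt_succ (mem_range.1 hi))))

/-- The random set. -/
def nz (ω : Ω → Fin (Q + 1)) : Finset Ω := univ.filter fun p => ω p = 0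

omit [DecidableEq Ω] in
theorem mem_nz {ω : Ω → Fin (Q + 1)} {p : Ω} : p ∈ nz ω ↔ ω p = 0 := by simp [nz]

/-- Closed functions. -/
def Cld (Q s : ℕ) (ε : ℝ) (g : MF Ω) : Prop :=
  ∀ A : Finset Ω, A.card ≤ s → pr (fun ω : Ω → Fin (Q + 1) => ¬ g (A ∪ nz ω)) ≤ ε → g A

/-- The small sets that are rejected. -/
noncomputable def rej (s : ℕ) (f : MF Ω) : Finset (Finset Ω) :=
  univ.filter fun A : Finset Ω => A.card ≤ s ∧ ¬ f A

omit [DecidableEq Ω] in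
theorem mem_rej {s : ℕ} {f : MF Ω} {A : Finset Ω} : A ∈ rej s f ↔ A.card ≤ s ∧ ¬ f A := by
  simp [rej]

theorem closure (s : ℕ) {ε : ℝ} (hε : 0 ≤ ε) (u : ℕ) (f : MF Ω) (hf : Mo f)
    (hu : (rej s f).card ≤ u) :
    ∃ g : MF Ω, Mo g ∧ (∀ Y, f Y → g Y) ∧ Cld Q s ε g ∧
      (∀ Y, g Y → f Y ∨ ∃ A ⊆ Y, A.card ≤ s ∧ g A) ∧
      pr (fun ω : Ω → Fin (Q + 1) => ∃ Y, nz ω ⊆ Y ∧ g Y ∧ ¬ f Y) ≤ u * ε := by
  induction u generalizing f with
  | zero =>
    refine ⟨f, hf, fun _ => id, fun A hA _ => ?_, fun _ => Or.inl, by rw [pr_false (by simp)]; simp⟩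
    by_contra hc
    have := card_pos.2 ⟨A, mem_rej.2 ⟨hA, hc⟩⟩
    omega
  | succ u ih =>
    by_cases hc : Cld Q s ε f
    · exact ⟨f, hf, fun _ => id, hc, fun _ => Or.inl, by rw [pr_false (by simp)]; positivity⟩
    obtain ⟨A, a1, a2, a3⟩ : ∃ A : Finset Ω, A.card ≤ s ∧
        pr (fun ω : Ω → Fin (Q + 1) => ¬ f (A ∪ nz ω)) ≤ ε ∧ ¬ f A := by
      simpa [Cld] using hc
    obtain ⟨g, g1, g2, g3, g4, g5⟩ := ih (fun Y => f Y ∨ A ⊆ Y)
      (fun Y Y' h h' => h'.imp (hf Y Y' h) fun a => a.trans h) (by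
        refine Nat.le_of_lt_succ (lt_of_lt_of_le (card_lt_card ⟨fun B hB => ?_, fun h => ?_⟩) hu)
        · simp only [mem_rej, not_or] at hB ⊢
          exact ⟨hB.1, hB.2.1⟩
        · simpa [mem_rej] using h (mem_rej.2 ⟨a1, a3⟩))
    refine ⟨g, g1, fun Y h => g2 Y (Or.inl h), g3, fun Y h => ?_, ?_⟩
    · rcases g4 Y h with (h | h) | h
      · exact Or.inl h
      · exact Or.inr ⟨A, h, a1, g2 A (Or.inr subset_rfl)⟩
      · exact Or.inr h
    · refine (pr_le_or (F := fun ω : Ω → Fin (Q + 1) => ∃ Y, nz ω ⊆ Y ∧ g Y ∧ ¬ (f Y ∨ A ⊆ Y))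
        (G := fun ω => ¬ f (A ∪ nz ω)) ?_).trans ?_
      · rintro ω ⟨Y, b1, b2, b3⟩
        by_cases h : A ⊆ Y
        · exact Or.inr fun h' => b3 (hf _ _ (union_subset h b1) h')
        · exact Or.inl ⟨Y, b1, b2, fun h' => h'.elim b3 h⟩
      · push_cast
        linarith

theorem pr_sub (T : Finset Ω) :
    pr (fun ω : Ω → Fin (Q + 1) => T ⊆ nz ω) = (1 / (Q + 1 : ℝ)) ^ T.card := by
  rw [pr_congr (F := fun ω : Ω → Fin (Q + 1) => ∀ p ∈ T, ω p = 0) fun ω => by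
    simp [subset_iff, mem_nz], pr_pi_on T fun _ (a : Fin (Q + 1)) => a = 0, pr_zero, prod_const]

theorem petals {s : ℕ} {g : MF Ω} (hg : Mo g) (C : Finset Ω) (r : ℕ) :
    ∃ H : Finset Ω, H.card ≤ r * s ∧
      ((∀ A, C ⊆ A → A.card ≤ s → g A → ∃ p ∈ A, p ∉ C ∧ p ∈ H) ∨
        pr (fun ω : Ω → Fin (Q + 1) => ¬ g (C ∪ nz ω ∩ H)) ≤ (1 - (1 / (Q + 1 : ℝ)) ^ s) ^ r) := by
  induction r with
  | zero => exact ⟨∅, by simp, Or.inr (by simpa using pr_le_one _)⟩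
  | succ r ih =>
    obtain ⟨H, h1, h2⟩ := ih
    by_cases h3 : ∀ A, C ⊆ A → A.card ≤ s → g A → ∃ p ∈ A, p ∉ C ∧ p ∈ H
    · exact ⟨H, h1.trans (Nat.mul_le_mul_right _ r.le_succ), Or.inl h3⟩
    replace h2 := h2.resolve_left h3
    push Not at h3
    obtain ⟨A, a1, a2, a3, a4⟩ := h3
    have a5 : (A \ C).card ≤ s := (card_le_card sdiff_subset).trans a2
    refine ⟨H ∪ (A \ C), (card_union_le _ _).trans (by rw [add_mul]; omega), Or.inr ?_⟩
    have h4 : pr (fun ω : Ω → Fin (Q + 1) => ¬ (A \ C ⊆ nz ω)) ≤ 1 - (1 / (Q + 1 : ℝ)) ^ s := by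
      rw [pr_not, pr_sub]
      refine sub_le_sub_left (pow_le_pow_of_le_one (by positivity) ?_ a5) _
      rw [div_le_one (by positivity)]
      simp
    rw [← MP.piece H, pow_succ]
    refine le_trans (pr_mono (F := fun p : (Ω → Fin (Q + 1)) × (Ω → Fin (Q + 1)) =>
      ¬ g (C ∪ nz p.1 ∩ H) ∧ ¬ (A \ C ⊆ nz p.2)) fun p hp => ⟨fun h => hp (hg _ _ ?_ h),
        fun h => hp (hg _ _ ?_ a3)⟩) ?_
    · refine union_subset_union subset_rfl fun y hy => ?_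
      simp only [mem_inter, mem_nz, mem_union] at hy ⊢
      exact ⟨(piecewise_eq_of_mem _ _ _ hy.2).trans hy.1, Or.inl hy.2⟩
    · intro y hy
      by_cases hC : y ∈ C
      · exact mem_union_left _ hC
      have := mem_sdiff.2 ⟨hy, hC⟩
      refine mem_union_right _ (mem_inter.2 ⟨mem_nz.2 ?_, mem_union_right _ this⟩)
      exact (piecewise_eq_of_notMem _ _ _ (a4 y hy hC)).trans (mem_nz.1 (h this))
    · rw [pr_and (fun ω : Ω → Fin (Q + 1) => ¬ g (C ∪ nz ω ∩ H)) fun ω => ¬ (A \ C ⊆ nz ω)]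
      exact mul_le_mul h2 h4 (pr_nonneg _) ((pr_nonneg _).trans h2)

theorem few {s r : ℕ} {ε : ℝ} (hr : (1 - (1 / (Q + 1 : ℝ)) ^ s) ^ r ≤ ε) {g : MF Ω} (hg : Mo g)
    (hc : Cld Q s ε g) (i : ℕ) (C : Finset Ω) : ∃ D : Finset Ω, D.card + 1 ≤ (r * s + 1) ^ i ∧
      ∀ A, C ⊆ A → A.card ≤ s → A.card ≤ C.card + i → g A → g (C ∪ A ∩ D) := by
  induction i generalizing C with
  | zero =>
    refine ⟨∅, by simp, fun A a1 _ a2 a3 => ?_⟩
    rw [eq_of_subset_of_card_le a1 a2]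
    exact hg _ _ subset_union_left a3
  | succ i ih =>
    by_cases h0 : C.card ≤ s → g C
    · refine ⟨∅, Nat.one_le_pow _ _ (by omega), fun A a1 a2 _ _ => ?_⟩
      exact hg _ _ subset_union_left (h0 ((card_le_card a1).trans a2))
    obtain ⟨H, h1, h2⟩ := petals (Q := Q) (s := s) hg C r
    replace h2 := h2.resolve_right fun h => h0 fun h' => hc C h' (le_trans (pr_mono fun ω a b =>
      a (hg _ _ (union_subset_union subset_rfl inter_subset_left) b)) (h.trans hr))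
    choose D d1 d2 using fun p => ih (insert p C)
    refine ⟨H ∪ H.biUnion D, ?_, fun A a1 a2 a3 a4 => ?_⟩
    · have e1 := card_union_le H (H.biUnion D)
      have e2 := card_biUnion_le_card_mul H D ((r * s + 1) ^ i - 1) fun p _ => by
        have := d1 p
        omega
      obtain ⟨v, hv⟩ : ∃ v, (r * s + 1) ^ i = v + 1 := ⟨_, (Nat.succ_pred_eq_of_pos (by positivity)).symm⟩
      rw [pow_succ, hv]
      rw [hv, Nat.add_sub_cancel] at e2
      have := Nat.mul_le_mul_right v h1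
      nlinarith
    · obtain ⟨p, p1, p2, p3⟩ := h2 A a1 a2 a4
      refine hg _ _ ?_ (d2 p A (insert_subset p1 a1) a2 (by
        rw [card_insert_of_notMem p2]
        omega) a4)
      intro y hy
      simp only [mem_union, mem_insert, mem_inter, mem_biUnion] at hy ⊢
      rcases hy with (rfl | hy) | hy
      · exact Or.inr ⟨p1, Or.inl p3⟩
      · exact Or.inl hy
      · exact Or.inr ⟨hy.1, Or.inr ⟨p, p3, hy.2⟩⟩

theorem apx0 {w j s r : ℕ} {ε : ℝ} (hε : 0 ≤ ε) (hr : (1 - (1 / (Q + 1 : ℝ)) ^ s) ^ r ≤ ε)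
    (hj : 1 ≤ j) (hs : w * j ≤ s) (B : Finset Ω) {m : ℕ} {S : Set (MF Ω)}
    (h : MS w (Vr Ω) m S) : ∃ (ap : MF Ω → MF Ω) (𝒟 : Finset (Finset Ω))
      (E : (Ω → Fin (Q + 1)) → Prop), 𝒟.card ≤ m ∧ (∀ D ∈ 𝒟, D.card ≤ (r * s + 1) ^ s) ∧
      pr E ≤ m * (((s + 1) * (Fintype.card Ω + 1) ^ s : ℕ) * ε) ∧ ∀ f ∈ S, Mo (ap f) ∧
        (∀ Y, f (B ∪ Y) → ap f Y) ∧ (∀ ω, ¬ E ω → ∀ Y, nz ω ⊆ Y → ap f Y → f (B ∪ Y)) ∧
        ∀ U, (∀ D ∈ 𝒟, (D ∩ U).card ≤ j) →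
          ∃ D : Finset Ω, D.card ≤ j ∧ ∀ Y ⊆ U, ap f Y → ap f (Y ∩ D) := by
  induction m generalizing S with
  | zero =>
    refine ⟨fun f Y => f (B ∪ Y), ∅, fun _ => False, by simp, by simp, by
      rw [pr_false (by simp)]; simp, fun f hf => ?_⟩
    obtain ⟨p, rfl⟩ := h hf
    refine ⟨fun Y Y' a b => union_subset_union subset_rfl a b, fun _ => id, fun _ _ _ _ => id,
      fun U _ => ⟨{p}, by simpa, fun Y _ => ?_⟩⟩
    simp only [mem_union, mem_inter, mem_singleton, and_true, imp_self]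
  | succ m ih =>
    obtain ⟨S', g, a, ⟨P, b1, b2, b3⟩, c⟩ := h
    obtain ⟨ap, 𝒟, E, d1, d2, d3, d4⟩ := ih a
    obtain ⟨g', g1, g2, g3, g4, g5⟩ := closure (Q := Q) s hε _
      (fun Y => ∃ Y', g Y' ∧ ∀ f ∈ P, f Y' → ap f Y)
      (fun Y Y' h ⟨Z, z1, z2⟩ => ⟨Z, z1, fun f hf h' => (d4 f (b1 f hf)).1 _ _ h (z2 f hf h')⟩)
      ((card_le_card fun A hA => mem_filter.2 ⟨mem_univ _, (mem_rej.1 hA).1⟩).trans
        (small_card s))
    obtain ⟨D, e1, e2⟩ := few hr g1 g3 s ∅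
    refine ⟨fun f => if f ∈ S' then ap f else g', insert D 𝒟, fun ω => E ω ∨ ∃ Y, nz ω ⊆ Y ∧ g' Y ∧
      ¬ ∃ Y', g Y' ∧ ∀ f ∈ P, f Y' → ap f Y, (card_insert_le _ _).trans (by omega),
      fun D' hD => ?_, (pr_or _ _).trans ?_, fun f hf => ?_⟩
    · rcases mem_insert.1 hD with rfl | hD
      · omega
      · exact d2 _ hD
    · push_cast at d3 g5 ⊢
      linarith
    by_cases hS : f ∈ S'
    · simp only [hS, if_true]
      obtain ⟨f1, f2, f3, f4⟩ := d4 f hS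
      exact ⟨f1, f2, fun ω h => f3 ω fun h' => h (Or.inl h'),
        fun U h => f4 U fun D hD => h D (mem_insert_of_mem hD)⟩
    obtain rfl : f = g := (c hf).resolve_right hS
    simp only [hS, if_false]
    refine ⟨g1, fun Y h => g2 Y ⟨_, h, fun f' hf' => (d4 f' (b1 f' hf')).2.1 Y⟩,
      fun ω h Y h1 h2 => ?_, fun U hU => ⟨D ∩ U, hU D (mem_insert_self _ _), fun Y hY h => ?_⟩⟩
    · obtain ⟨Z, z1, z2⟩ : ∃ Y', f Y' ∧ ∀ f ∈ P, f Y' → ap f Y := by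
        by_contra hc
        exact h (Or.inr ⟨Y, h1, h2, hc⟩)
      exact b3 Z _ (fun f' hf' h' => (d4 f' (b1 f' hf')).2.2.1 ω (fun a => h (Or.inl a)) Y h1
        (z2 f' hf' h')) z1
    · obtain ⟨A, a1, a2, a3⟩ : ∃ A ⊆ Y, A.card ≤ s ∧ g' A := by
        refine (g4 Y h).elim (fun ⟨Z, z1, z2⟩ => ?_) id
        choose! D' k1 k2 using fun f' hf' => (d4 f' (b1 f' hf')).2.2.2 U
          fun D hD => hU D (mem_insert_of_mem hD)
        refine ⟨Y ∩ P.biUnion D', inter_subset_left, (card_le_card inter_subset_right).trans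
          ((card_biUnion_le_card_mul _ _ _ k1).trans ((Nat.mul_le_mul_right _ b2).trans hs)),
          g2 _ ⟨Z, z1, fun f' hf' h' => (d4 f' (b1 f' hf')).1 _ _ ?_ (k2 f' hf' Y hY (z2 f' hf' h'))⟩⟩
        exact inter_subset_inter_left (subset_biUnion_of_mem D' hf')
      refine g1 _ _ (fun y hy => ?_) (e2 A (empty_subset _) a2 (by simpa using a2) a3)
      simp only [empty_union, mem_inter] at hy ⊢
      exact ⟨a1 hy.1, hy.2, hY (a1 hy.1)⟩

/-- On subsets of `U`, a junta lies between `f (B ∪ ·)` and `f (B' ∪ ·)`. -/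
def Sw (j : ℕ) (U B B' : Finset Ω) (f : MF Ω) : Prop :=
  ∃ D : Finset Ω, D.card ≤ j ∧ ∀ Y ⊆ U, f (B ∪ Y) → f (B' ∪ Y ∩ D)

theorem apx {w j s r : ℕ} {ε : ℝ} (hε : 0 ≤ ε) (hr : (1 - (1 / (Q + 1 : ℝ)) ^ s) ^ r ≤ ε)
    (hj : 1 ≤ j) (hs : w * j ≤ s) (B : Finset Ω) {m : ℕ} {S : Set (MF Ω)}
    (h : MS w (Vr Ω) m S) : ∃ 𝒟 : Finset (Finset Ω), 𝒟.card ≤ m ∧
      (∀ D ∈ 𝒟, D.card ≤ (r * s + 1) ^ s) ∧
      pr (fun ω : Ω → Fin (Q + 1) => ¬ ∀ U, (∀ D ∈ 𝒟, (D ∩ U).card ≤ j) →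
        ∀ f ∈ S, Sw j U B (B ∪ nz ω) f) ≤
        m * (((s + 1) * (Fintype.card Ω + 1) ^ s : ℕ) * ε) := by
  obtain ⟨ap, 𝒟, E, d1, d2, d3, d4⟩ := apx0 hε hr hj hs B h
  refine ⟨𝒟, d1, d2, le_trans (pr_mono fun ω hω => ?_) d3⟩
  by_contra hc
  refine hω fun U hU f hf => ?_
  obtain ⟨f1, f2, f3, f4⟩ := d4 f hf
  obtain ⟨D, k1, k2⟩ := f4 U hU
  refine ⟨D, k1, fun Y hY a => ?_⟩
  rw [union_assoc]
  exact f3 ω hc _ subset_union_left (f1 _ _ subset_union_right (k2 Y hY (f2 Y a)))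

end Pool.Agent.P.MP_d1c5a4_lc.NL
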