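import Pool.Agent.P.MP_d1c5a4_lc.NL.Neg

/-! The lower bound for an abstract design. -/

namespace Pool.Agent.P.MP_d1c5a4_lc.NL

open Finset Classical

theorem markov {A B : Type} [Fintype A] [Fintype B] [Nonempty A] (E : A × B → Prop) {θ : ℝ}
    (hθ : 0 < θ) : pr (fun a => θ < pr fun b => E (a, b)) ≤ pr E / θ := by
  have hc : (0 : ℝ) < Fintype.card A := by exact_mod_cast Fintype.card_pos
  rw [← pr_fst (B := Unit), pr_prod, pr_prod E, div_right_comm, sum_div _ _ θ]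
  refine div_le_div_of_nonneg_right (sum_le_sum fun a _ => ?_) hc.le
  by_cases h : θ < pr fun b => E (a, b)
  · exact (pr_le_one _).trans ((one_le_div hθ).2 h.le)
  · rw [pr_false fun _ => h]
    exact div_nonneg (pr_nonneg _) hθ.le

variable {Ω X : Type} [Fintype Ω] [DecidableEq Ω] [Fintype X] [Nonempty X] {U : X → Finset Ω}
  {j : ℕ}

omit [Fintype Ω] in
theorem hit (hU : ∀ x x', x ≠ x' → (U x ∩ U x').card ≤ j) (D : Finset Ω) :
    pr (fun x => ¬ (D ∩ U x).card ≤ j) ≤ D.card ^ (j + 1) * (1 / Fintype.card X) := by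
  refine (pr_mono (F := fun x => ∃ Z ∈ powersetCard (j + 1) D, Z ⊆ U x) fun x h => ?_).trans
    ((pr_ex _ _ (ε := 1 / Fintype.card X) fun Z hZ => ?_).trans ?_)
  · obtain ⟨Z, h1, h2⟩ := exists_subset_card_eq (Nat.succ_le_of_lt (not_le.1 h))
    exact ⟨Z, mem_powersetCard.2 ⟨h1.trans inter_subset_left, h2⟩, h1.trans inter_subset_right⟩
  · by_cases h : ∃ x, Z ⊆ U x
    · obtain ⟨x, hx⟩ := h
      rw [← pr_eq x]
      refine pr_mono fun x' hx' => ?_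
      by_contra hc
      have := (card_le_card (subset_inter hx' hx)).trans (hU x' x hc)
      rw [(mem_powersetCard.1 hZ).2] at this
      omega
    · rw [pr_false (not_exists.1 h)]
      positivity
  · rw [card_powersetCard]
    gcongr
    exact_mod_cast Nat.choose_le_pow _ _

omit [Nonempty X] in
theorem one_step {w s ρ Q r m w₀ a : ℕ} {ε θ : ℝ} (hε : 0 ≤ ε) (hθ : 0 < θ)
    (hρ : (1 - (1 / (Q + 1 : ℝ)) ^ s) ^ ρ ≤ ε) (hj : 1 ≤ j) (hs : w * j ≤ s)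
    (ha : ∀ x, (U x).card ≤ a) {S : Finset ℕ → Set (MF Ω)} (hS : ∀ c, MS w (Vr Ω) m (S c))
    (e1 : 2 ^ r * (m * (((s + 1) * (Fintype.card Ω + 1) ^ s : ℕ) * ε)) ≤ 1 / 4)
    (e2 : Fintype.card X * (a * (1 / (Q + 1 : ℝ))) ^ w₀ ≤ 1 / 4)
    (e3 : a * (1 / (Q + 1 : ℝ)) / θ ≤ 1 / 4) (B : Finset Ω) :
    ∃ (Z : Finset Ω) (𝒟 : Finset (Finset Ω)), 𝒟.card ≤ 2 ^ r * m ∧
      (∀ D ∈ 𝒟, D.card ≤ (ρ * s + 1) ^ s) ∧
      (∀ U', (∀ D ∈ 𝒟, (D ∩ U').card ≤ j) → ∀ c ⊆ range r, ∀ f ∈ S c, Sw j U' B (B ∪ Z) f) ∧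
      (∀ x, (Z ∩ U x).card ≤ w₀) ∧ pr (fun x => 1 ≤ (Z ∩ U x).card) ≤ θ := by
  choose 𝒟 d1 d2 d3 using fun c => apx (Q := Q) hε hρ hj hs B (hS c)
  have h1 := pr_ex (range r).powerset _ fun c _ => d3 c
  have k : ∀ x u, pr (fun ω : Ω → Fin (Q + 1) => u ≤ (nz ω ∩ U x).card) ≤
      (a * (1 / (Q + 1 : ℝ))) ^ u := fun x u => by
    refine le_trans (pr_mono fun ω h => ?_) ((pr_many (fun _ (b : Fin (Q + 1)) => b = 0)
      (fun _ => (pr_zero Q).le) (U x) u).trans ?_)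
    · exact h.trans (card_le_card fun p hp => by
        simpa [mem_nz, and_comm] using hp)
    · gcongr
      exact_mod_cast ha x
  have h2 := pr_ex univ _ fun x _ => k x w₀
  have h3 := (markov (fun p : (Ω → Fin (Q + 1)) × X => 1 ≤ (nz p.1 ∩ U p.2).card) hθ).trans
    (div_le_div_of_nonneg_right (a := _) (b := a * (1 / (Q + 1 : ℝ))) (by
      rw [← pr_swap]
      exact pr_le_of_all _ (by positivity) fun x => (k x 1).trans_eq (pow_one _)) hθ.le)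
  rw [card_powerset, card_range] at h1
  rw [card_univ] at h2
  push_cast at h1 e1
  obtain ⟨ω, hω⟩ := exists_of_pr_lt (((pr_or _ _).trans (add_le_add h1 ((pr_or _ _).trans
    (add_le_add h2 h3)))).trans_lt (by linarith))
  simp only [not_or, not_exists, not_and, not_not, mem_powerset, mem_univ, true_imp_iff,
    not_le, not_lt] at hω
  refine ⟨nz ω, (range r).powerset.biUnion 𝒟, (card_biUnion_le_card_mul _ _ _
    fun c _ => d1 c).trans (by rw [card_powerset, card_range]), fun D hD => ?_,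
    fun U' h c hc => hω.1 c hc U' fun D hD => h D (mem_biUnion.2 ⟨c, mem_powerset.2 hc, hD⟩),
    fun x => (hω.2.1 x).le, hω.2.2⟩
  obtain ⟨c, -, hc⟩ := mem_biUnion.1 hD
  exact d2 c D hc

omit [Fintype Ω] in
theorem plant {r m w₀ τ : ℕ} {θ : ℝ} (hU : ∀ x x', x ≠ x' → (U x ∩ U x').card ≤ j)
    {S : Finset ℕ → Set (MF Ω)}
    (h : ∀ B : Finset Ω, ∃ (Z : Finset Ω) (𝒟 : Finset (Finset Ω)), 𝒟.card ≤ m ∧
      (∀ D ∈ 𝒟, D.card ≤ τ) ∧
      (∀ U', (∀ D ∈ 𝒟, (D ∩ U').card ≤ j) → ∀ c ⊆ range r, ∀ f ∈ S c, Sw j U' B (B ∪ Z) f) ∧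
      (∀ x, (Z ∩ U x).card ≤ w₀) ∧ pr (fun x => 1 ≤ (Z ∩ U x).card) ≤ θ)
    (e4 : 2 ^ (r + 1) * (m * ((τ : ℝ) ^ (j + 1) * (1 / Fintype.card X)) + θ) < 1) :
    ∃ (x : X) (B : ℕ → Finset Ω), Monotone B ∧ (∀ l x', (B l ∩ U x').card ≤ l * w₀) ∧
      (∀ l ≤ 2 ^ (r + 1), B l ∩ U x = ∅) ∧
      ∀ l < 2 ^ (r + 1), ∀ c ⊆ range r, ∀ f ∈ S c, Sw j (U x) (B l) (B (l + 1)) f := by
  choose Z 𝒟 d1 d2 d3 d4 d5 using h
  let B : ℕ → Finset Ω := fun l => Nat.rec ∅ (fun _ B => B ∪ Z B) l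
  have hB : ∀ l, B (l + 1) = B l ∪ Z (B l) := fun _ => rfl
  have h1 := pr_ex (range (2 ^ (r + 1))) (fun l x => (∃ D ∈ 𝒟 (B l), ¬ (D ∩ U x).card ≤ j) ∨
    1 ≤ (Z (B l) ∩ U x).card) (ε := m * ((τ : ℝ) ^ (j + 1) * (1 / Fintype.card X)) + θ)
    fun l _ => (pr_or _ _).trans (add_le_add ((pr_ex _ _ (ε := (τ : ℝ) ^ (j + 1) *
      (1 / Fintype.card X)) fun D hD => (hit hU D).trans (by
        gcongr
        exact_mod_cast d2 _ D hD)).trans (by
          gcongr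
          exact_mod_cast d1 _)) (d5 _))
  rw [card_range] at h1
  push_cast at h1
  obtain ⟨x, hx⟩ := exists_of_pr_lt (h1.trans_lt e4)
  simp only [not_or, not_exists, not_and, mem_range, not_le, Nat.lt_one_iff,
    card_eq_zero] at hx
  refine ⟨x, B, monotone_nat_of_le_succ fun l => subset_union_left, fun l x' => ?_, fun l hl => ?_,
    fun l hl => d3 _ _ fun D hD => not_lt.1 ((hx l hl).1 D hD)⟩
  · induction l with
    | zero => simp [B]
    | succ l ih =>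
      rw [hB, union_inter_distrib_right, add_mul, one_mul]
      exact (card_union_le _ _).trans (add_le_add ih (d4 _ _))
  · induction l with
    | zero => simp [B]
    | succ l ih => rw [hB, union_inter_distrib_right, ih (by omega), (hx l hl).2, union_empty]

theorem core {Pt : Type} [Fintype Pt] {gr : X → Pt → Ω} (hg : ∀ x, Function.Injective (gr x))
    (hU : ∀ x x', x ≠ x' → (univ.image (gr x) ∩ univ.image (gr x')).card ≤ j)
    {Sip : (Pt → Prop) → Prop} {L : ℕ}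
    (hL : ∀ R, (univ.filter R).card < L → ¬ Sip R) (ev : Prop)
    {n N k' K r S h t w s ρ Q w₀ : ℕ} {ε θ : ℝ} (e : Fin n → Ω) {G : List (Fn (Fin n))}
    {ψ : ℕ → Fn (Fin n)} {g : Fm N} (h1 : k' ≤ K) (h2 : G.length ≤ S) (h3 : Ckt r G)
    (h4 : ∀ i, ψ i ∈ G) (h5 : Wf S h (t + 1) g)
    (h6 : ∀ Y, (∃ x, Sip fun p => gr x p ∈ Y) ↔
      ∃ V : Finset (Fin N), V.card = k' ∧ g (fun i => ψ i (ind e Y)) V)
    (hw : 2 ^ h + 1 ≤ w) (hε : 0 ≤ ε) (hθ : 0 < θ) (hρ : (1 - (1 / (Q + 1 : ℝ)) ^ s) ^ ρ ≤ ε)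
    (hj : 1 ≤ j) (hs : w * j ≤ s) {m : ℕ} (hm : S + (S + 2) ^ h * gam N S (2 ^ h) ≤ m)
    (e1 : 2 ^ r * (m * (((s + 1) * (Fintype.card Ω + 1) ^ s : ℕ) * ε)) ≤ 1 / 4)
    (e2 : Fintype.card X * (Fintype.card Pt * (1 / (Q + 1 : ℝ))) ^ w₀ ≤ 1 / 4)
    (e3 : Fintype.card Pt * (1 / (Q + 1 : ℝ)) / θ ≤ 1 / 4)
    (e4 : 2 ^ (r + 1) * ((2 ^ r * m : ℕ) * ((((ρ * s + 1) ^ s : ℕ) : ℝ) ^ (j + 1) *
      (1 / Fintype.card X)) + θ) < 1)
    (e5 : 2 ^ (r + 1) * w₀ + j < L) :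
    ∃ Φ : Finset Pt, Φ.card ≤ r * j ∧ ∀ (β : Type) (P : (β → Bool) → Pt → Prop),
      (∀ p, Jun 1 fun y => P y p) → (∀ y, ∀ p ∈ Φ, P y p ↔ ev) →
      NN (2 ^ (2 * K + 1) * (j * 1) * 2 ^ h) ((N + 1) ^ K * (S + 2) ^ 2 ^ h) (t + 1)
        fun y => Sip (P y) := by
  obtain ⟨lf, ν, l1, l2, l3⟩ := lift (w := w) (by have := Nat.one_le_two_pow (n := h); omega) e h3
  choose A a1 a2 using fun c : Finset ℕ => sim (fun Y i => lf (ψ i) c Y) hw h5 le_rfl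
  have hS : ∀ c, MS w (Vr Ω) m ({F | ∃ g ∈ G, F = lf g c} ∪ A c) := fun c =>
    ((l1 c).add (a1 c) fun _ ⟨i, hi⟩ => ⟨ψ i, h4 i, hi⟩).le (by omega)
  obtain ⟨x, B, b1, b2, b3, b4⟩ := plant hU (one_step hε hθ hρ hj hs
    (fun x => card_image_le.trans card_univ.le) hS e1 e2 e3) e4
  obtain ⟨c, c1, u, Φ, c2, c3, c4⟩ := search (j := j) (U := univ.image (gr x)) b1 ev
    (F := fun i c => lf (ν i) c) (T := fun i Y => ν i (ind e Y)) (fun i hi => (l2 i hi).2)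
    (fun i hi c => (hS c).mo _ (Or.inl ⟨_, (l2 i hi).1, rfl⟩))
    (fun i hi c hc l hl => b4 l (by omega) c hc _ (Or.inl ⟨_, (l2 i hi).1, rfl⟩)) r 0 rfl
  refine ⟨univ.filter fun p => gr x p ∈ Φ, le_trans (card_le_card_of_injOn (gr x)
    (fun p hp => by simpa using hp) (hg x).injOn) c3, fun β P p1 p2 => ?_⟩
  let Y : (β → Bool) → Finset Ω := fun y => (univ.filter (P y)).image (gr x)
  have y1 : ∀ y p, gr x p ∈ Y y ↔ P y p := fun y p => by simp [Y, (hg x).eq_iff]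
  have y2 : ∀ y, Y y ⊆ univ.image (gr x) := fun y => image_subset_image (filter_subset _ _)
  have y3 : ∀ p, Jun 1 fun y => p ∈ Y y := fun p => by
    by_cases hp : p ∈ univ.image (gr x)
    · obtain ⟨p, -, rfl⟩ := mem_image.1 hp
      exact (p1 p).congr fun y => y1 y p
    · exact (Jun.const 1 False).congr fun y => iff_of_false (fun h => hp (y2 y h)) id
  have y4 : ∀ l, u ≤ l → l < u + 2 → ∀ y, Sip (P y) ↔ ∃ V : Finset (Fin N), V.card = k' ∧
      g (fun i => lf (ψ i) c (B l ∪ Y y)) V := fun l d1 d2 y => by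
    have d3 := l3 c _ (c4 l d1 d2 _ (y2 y) fun p hp hp' => by
      obtain ⟨p, -, rfl⟩ := mem_image.1 hp'
      exact (y1 y p).trans (p2 y p (by simpa using hp)))
    rw [funext fun i => propext (d3 _ (h4 i)), ← h6]
    have d4 : (fun p => gr x p ∈ B l ∪ Y y) = P y := funext fun p => propext (by
      rw [mem_union, y1, or_iff_right]
      intro d5
      have := mem_inter.2 ⟨d5, mem_image_of_mem (gr x) (mem_univ p)⟩
      rw [b3 l (by omega)] at this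
      exact notMem_empty _ this)
    refine ⟨fun h => ⟨x, d4 ▸ h⟩, fun ⟨x', h⟩ => ?_⟩
    by_cases hx : x' = x
    · rwa [hx, d4] at h
    refine absurd h (hL _ (lt_of_le_of_lt ?_ e5))
    refine le_trans (card_le_card_of_injOn (gr x') (t := B l ∩ univ.image (gr x') ∪
      univ.image (gr x') ∩ univ.image (gr x)) (fun p hp => ?_) (hg x').injOn)
      ((card_union_le _ _).trans (add_le_add ((b2 l x').trans
        (Nat.mul_le_mul_right _ (by omega))) (hU _ _ hx)))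
    have d5 := mem_image_of_mem (gr x') (mem_univ p)
    rcases (by simpa using hp : gr x' p ∈ B l ∨ gr x' p ∈ Y y) with d6 | d6
    · exact mem_union_left _ (mem_inter.2 ⟨d6, d5⟩)
    · exact mem_union_right _ (mem_inter.2 ⟨d5, y2 y d6⟩)
  have y5 : ∀ f ∈ A c, Sj (j * 1) (fun y => f (B u ∪ Y y)) fun y => f (B (u + 1) ∪ Y y) := by
    intro f hf
    obtain ⟨D, d1, d2⟩ := b4 u (by omega) c c1 f (Or.inr hf)
    refine ⟨fun y => f (B (u + 1) ∪ Y y ∩ D), (Jun.of_det D (fun p _ => y3 p)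
      fun y y' d3 => ?_).mono (Nat.mul_le_mul_right _ d1), fun y => ⟨d2 _ (y2 y),
        (hS c).mo f (Or.inr hf) _ _ (union_subset_union subset_rfl inter_subset_left)⟩⟩
    refine (hS c).mo f (Or.inr hf) _ _ (union_subset_union subset_rfl fun p hp => ?_)
    exact mem_inter.2 ⟨(d3 p (mem_inter.1 hp).2).1 (mem_inter.1 hp).1, (mem_inter.1 hp).2⟩
  choose! g' g1 g2 using fun V (hV : V ∈ powersetCard k' (univ : Finset (Fin N))) =>
    (a2 c β _ _ _ K (S + 2) (by omega) (by omega) y5 V ((mem_powersetCard.1 hV).2.trans_le h1)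
      t le_rfl).1
  refine (NN.ex _ (Nat.one_le_pow _ _ N.succ_pos) ?_ g1).congr fun y => ⟨fun h => ?_,
    fun ⟨V, v1, v2⟩ => (y4 (u + 1) (by omega) (by omega) y).2
      ⟨V, (mem_powersetCard.1 v1).2, (g2 V v1 y).2 v2⟩⟩
  · rw [card_powersetCard, card_univ, Fintype.card_fin]
    exact (Nat.choose_le_pow _ _).trans ((Nat.pow_le_pow_left N.le_succ _).trans
      (Nat.pow_le_pow_right N.succ_pos h1))
  · obtain ⟨V, v1, v2⟩ := (y4 u le_rfl (by omega) y).1 h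
    have := mem_powersetCard.2 ⟨subset_univ V, v1⟩
    exact ⟨V, this, (g2 V this y).1 v2⟩

end Pool.Agent.P.MP_d1c5a4_lc.NL
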