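import Mathlib

/-! The W-hierarchy under non-uniform reductions computed by circuits of size `f(k) n^c` with
few NOT gates. -/

namespace Pool.Agent.P.MP_d1c5a4_lc.NL

/-- `Ckt r G`: the list `G` holds the functions computed at the gates of a circuit on `n` bits
made of inputs, constants, AND and OR gates of fan-in two, and `r` NOT gates. -/
inductive Ckt {n : ℕ} : ℕ → List ((Fin n → Bool) → Prop) → Prop
  | nil : Ckt 0 []
  | var {r G} (i : Fin n) : Ckt r G → Ckt r ((fun x => x i = true) :: G)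
  | cst {r G} (p : Prop) : Ckt r G → Ckt r ((fun _ => p) :: G)
  | and {r G f g} : Ckt r G → f ∈ G → g ∈ G → Ckt r ((fun x => f x ∧ g x) :: G)
  | or {r G f g} : Ckt r G → f ∈ G → g ∈ G → Ckt r ((fun x => f x ∨ g x) :: G)
  | not {r G f} : Ckt r G → f ∈ G → Ckt (r + 1) ((fun x => ¬ f x) :: G)

/-- `Wf S h t g`: `g z V` is computed by a formula of depth at most `h` and weft at most `t`. Its
leaves are the control variables `z i` and the literals `y ∈ V`, `y ∉ V` of the `N` choice
variables; its small gates have fan-in two and its large gates have fan-in at most `S`. -/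
inductive Wf {N : ℕ} (S : ℕ) : ℕ → ℕ → ((ℕ → Prop) → Finset (Fin N) → Prop) → Prop
  | ctl (h t i : ℕ) : Wf S h t fun z _ => z i
  | pos (h t : ℕ) (y : Fin N) : Wf S h t fun _ V => y ∈ V
  | neg (h t : ℕ) (y : Fin N) : Wf S h t fun _ V => y ∉ V
  | and {h t f g} : Wf S h t f → Wf S h t g → Wf S (h + 1) t fun z V => f z V ∧ g z V
  | or {h t f g} : Wf S h t f → Wf S h t g → Wf S (h + 1) t fun z V => f z V ∨ g z V
  | all {h t} (Q : Finset ((ℕ → Prop) → Finset (Fin N) → Prop)) : Q.card ≤ S →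
      (∀ f ∈ Q, Wf S h t f) → Wf S (h + 1) (t + 1) fun z V => ∀ f ∈ Q, f z V
  | ex {h t} (Q : Finset ((ℕ → Prop) → Finset (Fin N) → Prop)) : Q.card ≤ S →
      (∀ f ∈ Q, Wf S h t f) → Wf S (h + 1) (t + 1) fun z V => ∃ f ∈ Q, f z V

/-- The class `W[t]` with at most `R k n` negations: for each parameter `k` and length `n`,
membership is the weight `k'` satisfiability of a formula of depth `h` and weft `t` whose control
variables are gates of a circuit with at most `R k n` NOT gates; all sizes are at most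
`f k * (n + 1) ^ c`, and `k' ≤ f k`. -/
def WN (R : ℕ → ℕ → ℕ) (t : ℕ) : Set (Set (List Bool × ℕ)) :=
  {L | ∃ (f : ℕ → ℕ) (h c : ℕ), ∀ k n, ∃ (N k' r : ℕ) (G : List ((Fin n → Bool) → Prop))
    (ψ : ℕ → (Fin n → Bool) → Prop) (g : (ℕ → Prop) → Finset (Fin N) → Prop),
      N ≤ f k * (n + 1) ^ c ∧ k' ≤ f k ∧ r ≤ R k n ∧ G.length ≤ f k * (n + 1) ^ c ∧ Ckt r G ∧
      (∀ i, ψ i ∈ G) ∧ Wf (f k * (n + 1) ^ c) h t g ∧
      ∀ x : Fin n → Bool, (List.ofFn x, k) ∈ L ↔
        ∃ V : Finset (Fin N), V.card = k' ∧ g (fun i => ψ i x) V}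

end Pool.Agent.P.MP_d1c5a4_lc.NL
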