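import Pool.Agent.P.MP_d1c5a4_lc.NL.Core

/-! The hard functions. -/

namespace Pool.Agent.P.MP_d1c5a4_lc.NL

open Finset Classical

theorem design {p a k : ℕ} (hp : p.Prime) (ha : a ≠ 0) (Pt : Type) [Fintype Pt]
    (h : Fintype.card Pt ≤ p ^ a) : ∃ ev : (Fin k → Fin (p ^ a)) → Pt → Fin (p ^ a),
      ∀ x x', x ≠ x' → (univ.filter fun y => ev x y = ev x' y).card < k := by
  have : Fact p.Prime := ⟨hp⟩
  have : Fintype (GaloisField p a) := Fintype.ofFinite _
  have hc : Fintype.card (GaloisField p a) = p ^ a := by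
    rw [← Nat.card_eq_fintype_card, GaloisField.card p a ha]
  let e := Fintype.equivFinOfCardEq hc
  obtain ⟨ι⟩ := Function.Embedding.nonempty_of_card_le (h.trans hc.ge)
  refine ⟨fun x y => e (∑ i, e.symm (x i) * ι y ^ (i : ℕ)), fun x x' hx => ?_⟩
  by_contra hk
  obtain ⟨Z, z1, z2⟩ := exists_subset_card_eq (not_lt.1 hk)
  let f := (Z.equivFinOfCardEq z2).symm
  have := Matrix.eq_zero_of_forall_index_sum_mul_pow_eq_zero (f := fun i => ι (f i))
    (v := fun i => e.symm (x i) - e.symm (x' i))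
    (ι.injective.comp (Subtype.val_injective.comp f.injective)) fun i => by
      simp only [sub_mul, sum_sub_distrib]
      exact sub_eq_zero.2 (e.injective (mem_filter.1 (z1 (f i).2)).2)
  exact hx (funext fun i => e.symm.injective (sub_eq_zero.1 (congrFun this i)))

/-- The leaves of the tree. -/
abbrev Pt (j L : ℕ) : Type := (Fin j → Ix L) × Fin L × Fin (L + 1)

variable {j L : ℕ}

/-- The monotone tree. -/
def Sip (f₀ : Fin j → Ix L) (R : Pt j L → Prop) : Prop :=
  Tr (fun f => ∀ a b, R (f, a, b) ↔ Even j) j f₀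

theorem tr_zero (hL : 0 < L) {R : Pt j L → Prop} (l : ℕ) (f : Fin j → Ix L)
    (h : ∀ p : Pt j L, (∀ i : Fin j, l ≤ i.val → p.1 i = f i) → ¬ R p) :
    Tr (fun f => ∀ a b, R (f, a, b) ↔ Even j) l f ↔ ¬ Even (j + l) := by
  induction l generalizing f with
  | zero =>
    have : ∀ a b, ¬ R (f, a, b) := fun a b => h _ fun _ _ => rfl
    exact ⟨fun c d => this ⟨0, hL⟩ 0 ((c _ _).2 d), fun c a b => iff_of_false (this a b) c⟩
  | succ l ih =>
    have : ∀ i, Tr (fun f => ∀ a b, R (f, a, b) ↔ Even j) l (upd f l i) ↔ ¬ Even (j + l) :=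
      fun i => ih _ fun p hp => h p fun i' hi' => by
        rw [hp i' (by omega), upd, if_neg (by omega)]
    have h0 : Nonempty (Ix L) := ⟨(⟨0, hL⟩, ⟨0, by positivity⟩)⟩
    simp only [Tr, this, forall_const, ← add_assoc, Nat.even_add_one]

theorem sip_few (f₀ : Fin j → Ix L) (R : Pt j L → Prop) (h : (univ.filter R).card < L) :
    ¬ Sip f₀ R := by
  intro hS
  rcases j with _ | j
  · obtain ⟨a, -, ha⟩ := exists_mem_notMem_of_card_lt_card (t := univ)
      (s := (univ.filter R).image fun p => p.2.1) (card_image_le.trans_lt (by simpa using h))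
    exact ha (mem_image.2 ⟨(f₀, a, 0), mem_filter.2 ⟨mem_univ _, (hS a 0).2 (by simp)⟩, rfl⟩)
  · obtain ⟨a, -, ha⟩ := exists_mem_notMem_of_card_lt_card (t := univ)
      (s := (univ.filter R).image fun p => (p.1 (Fin.last j)).1)
      (card_image_le.trans_lt (by simpa using h))
    have hL : 0 < L := by omega
    refine hS (a, ⟨0, by positivity⟩) ((tr_zero hL j _ fun p hp hR => ha (mem_image.2
      ⟨p, mem_filter.2 ⟨mem_univ _, hR⟩, ?_⟩)).2 ?_)
    · rw [hp (Fin.last j) le_rfl, upd, if_pos (Fin.val_last j)]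
    · rw [Nat.even_iff]
      omega

theorem sip_hard (j W C : ℕ) : ∀ᶠ L : ℕ in Filter.atTop, ∀ (f₀ : Fin j → Ix L)
    (Φ : Finset (Pt j L)), Φ.card ≤ L → ¬ ∀ (β : Type) (P : (β → Bool) → Pt j L → Prop),
      (∀ p, Jun 1 fun y => P y p) → (∀ y, ∀ p ∈ Φ, P y p ↔ Even j) →
      NN W (L ^ C) (j + 1) fun y => Sip f₀ (P y) := by
  filter_upwards [sipser j W C] with L hL f₀ Φ hΦ h
  have : ∀ v : (Fin j → Ix L) × Fin L, ∃ b, (v.1, v.2, b) ∉ Φ := fun v => by
    obtain ⟨b, -, hb⟩ := exists_mem_notMem_of_card_lt_card (t := univ)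
      (s := Φ.image fun p => p.2.2) (card_image_le.trans_lt (by simpa using Nat.lt_succ_of_le hΦ))
    exact ⟨b, fun h => hb (mem_image_of_mem _ h)⟩
  choose ρ hρ using this
  refine hL f₀ ((h _ (fun y p => (p.2.2 = ρ (p.1, p.2.1) → y (p.1, p.2.1) = true) ↔ Even j)
    (fun p => ⟨{(p.1, p.2.1)}, by simp, fun y y' c => by
      simp only [c _ (mem_singleton_self _), imp_self]⟩)
    fun y p hp => ?_).congr fun y => ?_)
  · have : p.2.2 ≠ ρ (p.1, p.2.1) := fun e => hρ (p.1, p.2.1) (e ▸ hp)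
    simp [this]
  · refine iff_of_eq (congrArg (fun ℓ => Tr ℓ j f₀) (funext fun f => propext
      (forall_congr' fun a => ?_)))
    have e : ∀ p q : Prop, ((p ↔ q) ↔ q) ↔ p := by tauto
    simp only [e, forall_eq]

section
variable {N S h t : ℕ} {ι : Type} {f g : Fm N}

theorem Wf.congr (a : Wf S h t f) (b : ∀ z V, g z V ↔ f z V) : Wf S h t g := by
  rwa [show g = f from funext fun z => funext fun V => propext (b z V)]

theorem Wf.mono (a : Wf S h t f) (u v : ℕ) : Wf S (h + u) (t + v) f := by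
  induction a with
  | ctl => exact .ctl ..
  | pos => exact .pos ..
  | neg => exact .neg ..
  | and _ _ ih ih' => exact Nat.add_right_comm _ u 1 ▸ .and ih ih'
  | or _ _ ih ih' => exact Nat.add_right_comm _ u 1 ▸ .or ih ih'
  | all Q a _ ih => exact Nat.add_right_comm _ u 1 ▸ Nat.add_right_comm _ v 1 ▸ .all Q a ih
  | ex Q a _ ih => exact Nat.add_right_comm _ u 1 ▸ Nat.add_right_comm _ v 1 ▸ .ex Q a ih

theorem Wf.all' (T : Finset ι) (hT : T.card ≤ S) {g : ι → Fm N} (a : ∀ i ∈ T, Wf S h t (g i)) :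
    Wf S (h + 1) (t + 1) fun z V => ∀ i ∈ T, g i z V :=
  (Wf.all (T.image g) (card_image_le.trans hT) (by simpa using a)).congr fun _ _ => by simp

theorem Wf.ex' (T : Finset ι) (hT : T.card ≤ S) {g : ι → Fm N} (a : ∀ i ∈ T, Wf S h t (g i)) :
    Wf S (h + 1) (t + 1) fun z V => ∃ i ∈ T, g i z V :=
  (Wf.ex (T.image g) (card_image_le.trans hT) (by simpa using a)).congr fun _ _ => by simp

theorem wf_tr {I : Type} [Fintype I] {ℓ : (ℕ → Prop) → Finset (Fin N) → (Fin j → I) → Prop}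
    (h1 : Even j → ∀ f, Wf S h t fun z V => ℓ z V f)
    (h2 : ¬ Even j → ∀ f, Wf S h t fun z V => ¬ ℓ z V f) (l : ℕ)
    (hI : 1 ≤ l → Fintype.card I ≤ S) (f : Fin j → I) :
    (Even (j + l) → Wf S (h + l) (t + l) fun z V => Tr (ℓ z V) l f) ∧
    (¬ Even (j + l) → Wf S (h + l) (t + l) fun z V => ¬ Tr (ℓ z V) l f) := by
  induction l generalizing f with
  | zero => exact ⟨fun a => h1 a f, fun a => h2 a f⟩
  | succ l ih =>
    replace hI := hI (by omega)
    rw [← add_assoc, Nat.even_add_one, not_not]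
    exact ⟨fun a => (Wf.all' univ hI fun i _ => (ih (fun _ => hI) (upd f l i)).2 a).congr
      fun _ _ => by simp [Tr], fun a => (Wf.ex' univ hI fun i _ =>
        (ih (fun _ => hI) (upd f l i)).1 a).congr fun _ _ => by simp [Tr]⟩

end

/-- The representation of one Boolean function. -/
def Rp {n : ℕ} (t h S K r : ℕ) (F : Fn (Fin n)) : Prop :=
  ∃ (N k' : ℕ) (G : List (Fn (Fin n))) (ψ : ℕ → Fn (Fin n)) (g : Fm N),
    N ≤ S ∧ k' ≤ K ∧ G.length ≤ S ∧ Ckt r G ∧ (∀ i, ψ i ∈ G) ∧ Wf S h t g ∧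
      ∀ x : Fin n → Bool, F x ↔ ∃ V : Finset (Fin N), V.card = k' ∧ g (fun i => ψ i x) V

theorem rp_false {n t h S K : ℕ} (hS : 1 ≤ S) : Rp (n := n) t h S K 0 fun _ => False :=
  ⟨0, 0, [fun _ => False], fun _ _ => False, fun z _ => z 0, by omega, by omega, hS,
    .cst False .nil, by simp, .ctl .., by simp⟩

theorem ckt_var {n : ℕ} (l : List (Fin n)) :
    Ckt 0 (l.map fun i (x : Fin n → Bool) => x i = true) := by
  induction l with
  | nil => exact .nil
  | cons i l ih => exact .var i ih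

variable {k q n : ℕ}

/-- The positions. -/
abbrev Pos (j L k q : ℕ) : Type := Pt j L × (Fin k → Fin q)

/-- The graph of a tuple of rows. -/
def gr (ev : (Fin k → Fin q) → Pt j L → Fin q) (x : Fin k → Fin k → Fin q) (p : Pt j L) :
    Pos j L k q := (p, fun i => ev (x i) p)

/-- The hard function. -/
def Hd (f₀ : Fin j → Ix L) (ev : (Fin k → Fin q) → Pt j L → Fin q) (e : Fin n ≃ Pos j L k q) :
    Fn (Fin n) := fun x => ∃ u, Sip f₀ fun p => x (e.symm (gr ev u p)) = true

theorem rp_hd (hL : 0 < L) (hq : 0 < q) (f₀ : Fin j → Ix L)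
    (ev : (Fin k → Fin q) → Pt j L → Fin q) (e : Fin n ≃ Pos j L k q) :
    Rp (j + 2) (j + 4) ((k + 1) * (n + 1) ^ 1) (k + 1) 0 (Hd f₀ ev e) := by
  have hn : Fintype.card (Pos j L k q) = n := by rw [← Fintype.card_congr e, Fintype.card_fin]
  have s0 : n + 1 ≤ (k + 1) * (n + 1) ^ 1 := by
    rw [pow_one]
    exact Nat.le_mul_of_pos_left _ k.succ_pos
  have s1 : ∀ {α : Type} [Fintype α] (φ : α → Pos j L k q), Function.Injective φ →
      Fintype.card α ≤ n := fun φ h => hn ▸ Fintype.card_le_of_injective φ h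
  have s2 := s1 (fun v => ((f₀, ⟨0, hL⟩, 0), v)) fun _ _ h => (Prod.ext_iff.1 h).2
  have s3 : Fintype.card (Fin k × (Fin k → Fin q)) ≤ (k + 1) * (n + 1) ^ 1 := by
    rw [Fintype.card_prod, Fintype.card_fin, pow_one]
    exact Nat.mul_le_mul k.le_succ (s2.trans n.le_succ)
  have s4 := (s1 (fun c : Fin L × Fin (L + 1) × (Fin k → Fin q) => ((f₀, c.1, c.2.1), c.2.2))
    fun _ _ h => by simpa [Prod.ext_iff, and_assoc] using h).trans (n.le_succ.trans s0)
  let δ := Fintype.equivFin (Fin k × (Fin k → Fin q))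
  let T : Pos j L k q → Finset (Fin k × (Fin k → Fin q)) := fun p =>
    univ.filter fun c => ev c.2 p.1 ≠ p.2 c.1
  have s5 : ∀ p, (T p).card ≤ (k + 1) * (n + 1) ^ 1 := fun p => (card_le_univ _).trans s3
  let ℓ : (ℕ → Prop) → Finset (Fin (Fintype.card (Fin k × (Fin k → Fin q)))) →
      (Fin j → Ix L) → Prop := fun z V f =>
    (Even j → ∀ c ∈ (univ : Finset (Fin L × Fin (L + 1) × (Fin k → Fin q))),
      z (e.symm ((f, c.1, c.2.1), c.2.2)) ∨ ∃ y ∈ T ((f, c.1, c.2.1), c.2.2), δ y ∈ V) ∧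
    (¬ Even j → ¬ ∃ c ∈ (univ : Finset (Fin L × Fin (L + 1) × (Fin k → Fin q))),
      z (e.symm ((f, c.1, c.2.1), c.2.2)) ∧ ∀ y ∈ T ((f, c.1, c.2.1), c.2.2), δ y ∉ V)
  have w1 := (wf_tr (S := (k + 1) * (n + 1) ^ 1) (h := 3) (t := 2) (ℓ := ℓ)
    (fun a f => (Wf.all' univ s4 fun c _ => Wf.or (.ctl 1 1 (e.symm ((f, c.1, c.2.1), c.2.2)))
      (Wf.ex' _ (s5 ((f, c.1, c.2.1), c.2.2)) fun y _ => .pos 0 0 (δ y))).congr
        fun _ _ => by simp only [ℓ, a, true_imp_iff, not_true, false_imp_iff, and_true])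
    (fun a f => (Wf.ex' univ s4 fun c _ => Wf.and (.ctl 1 1 (e.symm ((f, c.1, c.2.1), c.2.2)))
      (Wf.all' _ (s5 ((f, c.1, c.2.1), c.2.2)) fun y _ => .neg 0 0 (δ y))).congr
        fun _ _ => by
          simp only [ℓ, a, true_imp_iff, not_false_iff, false_imp_iff, true_and, not_not])
    j (fun a => (s1 (fun i : Ix L => ((fun _ => i, ⟨0, hL⟩, 0), fun _ => ⟨0, hq⟩)) fun _ _ h =>
      congrFun (Prod.ext_iff.1 (Prod.ext_iff.1 h).1).1 ⟨0, a⟩).trans (n.le_succ.trans s0))
    f₀).1 ⟨j, rfl⟩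
  have w2 := (Wf.all' (S := (k + 1) * (n + 1) ^ 1) (univ : Finset (Fin k))
    (by simpa using k.le_succ.trans (Nat.le_mul_of_pos_right _ n.succ_pos)) fun i _ =>
      Wf.ex' (univ : Finset (Fin k → Fin q)) (s2.trans (n.le_succ.trans s0))
        fun x _ => .pos 0 0 (δ (i, x))).mono (1 + j) j
  rw [show 0 + 1 + 1 + (1 + j) = 3 + j by omega] at w2
  refine ⟨_, k, (fun _ => True) :: (List.finRange n).map fun i x => x i = true,
    fun i => if h : i < n then fun x => x ⟨i, h⟩ = true else fun _ => True, _, s3, k.le_succ,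
    by simp, .cst True (ckt_var _), fun i => ?_,
    (show 3 + j + 1 = j + 4 by omega) ▸ (show 2 + j = j + 2 by omega) ▸ w1.and w2, fun x => ?_⟩
  · dsimp only
    split_ifs with h
    · exact List.mem_cons_of_mem _ (List.mem_map.2 ⟨⟨i, h⟩, List.mem_finRange _, rfl⟩)
    · exact List.mem_cons_self
  have key : ∀ (u : Fin k → Fin k → Fin q) V, (∀ y, δ y ∈ V ↔ u y.1 = y.2) →
      ℓ (fun i => (if h : i < n then fun x => x ⟨i, h⟩ = true else fun _ => True : Fn (Fin n)) x)
        V = fun f => ∀ a b, x (e.symm (gr ev u (f, a, b))) = true ↔ Even j := fun u V hV => by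
    refine funext fun f => propext ?_
    simp only [ℓ, T, hV, Fin.is_lt, dif_pos, mem_univ, true_and, true_imp_iff, mem_filter,
      Prod.forall, Prod.exists, Fin.eta, not_exists, not_and, not_forall, not_not]
    by_cases a : Even j
    · simp only [a, true_imp_iff, not_true, false_imp_iff, and_true, iff_true]
      refine forall₂_congr fun a b => ⟨fun h => (h _).resolve_right ?_, fun h v => ?_⟩
      · rintro ⟨i, _, c, rfl⟩
        exact c rfl
      · by_contra hc
        push Not at hc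
        obtain rfl : (fun i => ev (u i) (f, a, b)) = v := funext fun i => by
          by_contra c
          exact hc.2 i _ c rfl
        exact hc.1 h
    · simp only [a, true_imp_iff, not_false_iff, false_imp_iff, true_and, iff_false]
      refine forall₂_congr fun a b => ⟨fun h h' => ?_, fun h v h' => ?_⟩
      · obtain ⟨i, _, c, rfl⟩ := h _ h'
        exact c rfl
      · by_contra hc
        push Not at hc
        obtain rfl : (fun i => ev (u i) (f, a, b)) = v := funext fun i => by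
          by_contra c
          exact hc i _ c rfl
        exact h h'
  have inj : ∀ u : Fin k → Fin k → Fin q, (univ.image fun i => δ (i, u i)).card = k ∧
      ∀ y, δ y ∈ univ.image (fun i => δ (i, u i)) ↔ u y.1 = y.2 := fun u =>
    ⟨by rw [card_image_of_injective _ fun _ _ h => (Prod.ext_iff.1 (δ.injective h)).1]; simp,
      fun y => by simp [Prod.ext_iff]⟩
  constructor
  · rintro ⟨u, hu⟩
    refine ⟨_, (inj u).1, ?_, fun i _ => ⟨u i, mem_univ _, ((inj u).2 _).2 rfl⟩⟩
    rwa [key u _ (inj u).2]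
  · rintro ⟨V, v1, v2, v3⟩
    choose u hu using fun i => v3 i (mem_univ _)
    obtain rfl : univ.image (fun i => δ (i, u i)) = V := eq_of_subset_of_card_le
      (image_subset_iff.2 fun i _ => (hu i).2) (by rw [v1, (inj u).1])
    rw [key u _ (inj u).2] at v2
    exact ⟨u, v2⟩

end Pool.Agent.P.MP_d1c5a4_lc.NL
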