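import Pool.Agent.P.MP_d1c5a4_lc.NL.Hard

/-! The separation of the levels. -/

namespace Pool.Agent.P.MP_d1c5a4_lc.NL

open Finset Classical Filter

/-- The exponent of the field size. -/
def aa (j k : ℕ) : ℕ := k ^ 3 + (4 * j + 4)

theorem card_pt (j L : ℕ) : Fintype.card (Pt j L) = (L * L ^ 3) ^ j * (L * (L + 1)) := by
  simp only [Fintype.card_prod, Fintype.card_pi, Fintype.card_fin, prod_const, card_univ]

theorem card_pos' (j L k q : ℕ) :
    Fintype.card (Pos j L k q) = (L * L ^ 3) ^ j * (L * (L + 1)) * q ^ k := by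
  rw [Fintype.card_prod, card_pt]
  simp

theorem pt_le (j : ℕ) {L : ℕ} (hL : 2 ≤ L) : Fintype.card (Pt j L) ≤ L ^ (4 * j + 3) := by
  rw [card_pt, show L ^ (4 * j + 3) = (L * L ^ 3) ^ j * (L * (L * L)) by ring]
  gcongr
  nlinarith

theorem pos_le (j k : ℕ) {L : ℕ} (hL : 2 ≤ L) :
    Fintype.card (Pos j L k (L ^ aa j k)) + 1 ≤ (L ^ aa j k) ^ (k + 1) := by
  have h1 := pt_le j hL
  have h2 : L ^ (4 * j + 3) < L ^ aa j k := Nat.pow_lt_pow_right hL (by unfold aa; omega)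
  have h3 : 0 < (L ^ aa j k) ^ k := by positivity
  rw [Fintype.card_prod, pow_succ' _ k, show Fintype.card (Fin k → Fin (L ^ aa j k)) =
    (L ^ aa j k) ^ k by simp]
  exact Nat.mul_lt_mul_of_pos_right (h1.trans_lt h2) h3

theorem pos_mono (j k : ℕ) : StrictMono fun L => Fintype.card (Pos j L k (L ^ aa j k)) := by
  intro L L' h
  have h0 : 0 < L' := by omega
  simp only [card_pos']
  refine lt_of_le_of_lt (b := (L' * L' ^ 3) ^ j * (L * (L + 1)) * (L' ^ aa j k) ^ k) (by gcongr) ?_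
  gcongr

theorem gam_le {N S h : ℕ} (hN : N ≤ S) :
    S + (S + 2) ^ h * gam N S (2 ^ h) ≤ (S + 2) ^ (h + 5 * 2 ^ h + 3) := by
  have h1 : gam N S (2 ^ h) ≤ (S + 2) ^ 2 ^ h * ((S + 2) ^ 4) ^ 2 ^ h * (S + 2) ^ 2 := by
    unfold gam
    gcongr
    · exact Nat.lt_two_pow_self.trans_le (Nat.pow_le_pow_left (by omega) _)
    · have : (N + 1) * ((N + 1) * 2) ≤ (S + 2) * ((S + 2) * 2) := by gcongr <;> omega
      have h2 : 4 ≤ (S + 2) ^ 2 := by nlinarith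
      nlinarith
    · nlinarith
  have h2 : (S + 2) ^ h * gam N S (2 ^ h) ≤ (S + 2) ^ (h + 5 * 2 ^ h + 2) :=
    (Nat.mul_le_mul_left _ h1).trans (le_of_eq (by generalize S + 2 = Y; ring))
  have h3 : S + 2 ≤ (S + 2) ^ (h + 5 * 2 ^ h + 2) := Nat.le_self_pow (by omega) _
  rw [pow_succ (S + 2) (h + 5 * 2 ^ h + 2)]
  nlinarith

theorem lb (j h c A : ℕ) {k : ℕ} (hk : (2 * c + 1) * (h + 5 * 2 ^ h + 3) + 2 ≤ k)
    (hk' : (4 * j + 7) * (2 ^ h + 1) ^ 2 ≤ k) :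
    ∀ᶠ L : ℕ in atTop, ∀ (f₀ : Fin j → Ix L)
      (ev : (Fin (k + 1) → Fin (L ^ aa j (k + 1))) → Pt j L → Fin (L ^ aa j (k + 1))),
      (∀ x x', x ≠ x' → (univ.filter fun y => ev x y = ev x' y).card < k + 1) →
      ∀ (n : ℕ) (e : Fin n ≃ Pos j L (k + 1) (L ^ aa j (k + 1))) (r : ℕ), 2 ^ r * 2 ^ r ≤ L →
        ¬ Rp (j + 1) h (A * (n + 1) ^ c) A r (Hd f₀ ev e) := by
  obtain ⟨a, ha⟩ : ∃ a, a = aa j (k + 1) := ⟨_, rfl⟩
  obtain ⟨s, hs⟩ : ∃ s, s = (k + 1) * (k + 1) := ⟨_, rfl⟩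
  obtain ⟨u, hu⟩ : ∃ u, u = (k + 2) * c + 1 := ⟨_, rfl⟩
  obtain ⟨v, hv⟩ : ∃ v, v = h + 5 * 2 ^ h + 3 := ⟨_, rfl⟩
  obtain ⟨σ, hσ⟩ : ∃ σ, σ = (2 ^ h + 1) * (k + 1) := ⟨_, rfl⟩
  have ha' : ((4 * j + 5) * σ + 2) * σ + (4 * j + 4) ≤ a := by
    have b1 : 1 ≤ σ := hσ ▸ Nat.mul_pos (by positivity) k.succ_pos
    have b2 : (4 * j + 7) * (σ * σ) ≤ (k + 1) ^ 3 :=
      calc _ = (4 * j + 7) * (2 ^ h + 1) ^ 2 * (k + 1) ^ 2 := by rw [hσ]; ring
        _ ≤ (k + 1) * (k + 1) ^ 2 := Nat.mul_le_mul_right _ (by omega)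
        _ = _ := by ring
    rw [ha, aa]
    nlinarith
  have k1 : v + 2 ≤ k := by nlinarith [Nat.zero_le (c * v)]
  have k2 : u * v + (k + 1) + 2 ≤ s := by
    have b1 : u ≤ (k + 1) * (2 * c + 1) := by nlinarith
    have b2 := Nat.mul_le_mul_right v b1
    have b3 := Nat.mul_le_mul_left (k + 1) (hv ▸ hk)
    nlinarith
  filter_upwards [sip_hard j (2 ^ (2 * A + 1) * (k * 1) * 2 ^ h) (a * u * (A + 2 ^ h)),
    ev_geom (ρ := 2 / 3) (by norm_num) (by norm_num) (4 * (σ + 1)) (1 + a * (u * v) + a * (k + 2) * σ),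
    eventually_ge_atTop (A + σ + 10), eventually_ge_atTop ((2 * (a * s + 1) + k + 1) ^ 2)]
    with L l1 l2 l3 l4 f₀ ev hev n e r hr ⟨N, k', G, ψ, g, g1, g2, g3, g4, g5, g6, g7⟩
  have hn : Fintype.card (Pos j L (k + 1) (L ^ aa j (k + 1))) = n := by
    rw [← Fintype.card_congr e, Fintype.card_fin]
  have L0 : 0 < L := by omega
  have n1 := pos_le j (k + 1) (L := L) (by omega)
  have n2 := pt_le j (L := L) (by omega)
  have hX : Fintype.card (Fin (k + 1) → Fin (k + 1) → Fin (L ^ aa j (k + 1))) = (L ^ a) ^ s := by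
    simp only [Fintype.card_pi, Fintype.card_fin, prod_const, card_univ]
    rw [← pow_mul, ha, hs]
  rw [hn, ← ha] at n1
  have q1 : L * L ≤ L ^ a := (pow_two L).symm.trans_le (Nat.pow_le_pow_right (by omega) (by omega))
  have q2 : 0 < L ^ aa j (k + 1) := by positivity
  have : Nonempty (Fin (L ^ aa j (k + 1))) := ⟨⟨0, q2⟩⟩
  have s1 : A * (n + 1) ^ c + 2 ≤ (L ^ a) ^ u := by
    have b1 := Nat.pow_le_pow_left n1 c
    have b2 : 1 ≤ ((L ^ a) ^ (k + 1 + 1)) ^ c := Nat.one_le_pow _ _ (by positivity)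
    have b3 := Nat.mul_le_mul_left A b1
    have b4 : A + 2 ≤ L ^ a := by nlinarith
    have b5 := Nat.mul_le_mul_right (((L ^ a) ^ (k + 1 + 1)) ^ c) b4
    rw [hu, pow_succ', pow_mul]
    nlinarith
  obtain ⟨Q, hQ⟩ : ∃ Q, L ^ (4 * j + 5) = Q + 1 :=
    ⟨_, (Nat.succ_pred_eq_of_pos (by positivity)).symm⟩
  have hQ' : (Q + 1 : ℝ) = L ^ (4 * j + 5) := by exact_mod_cast hQ.symm
  have L1 : (10 : ℝ) ≤ L := by exact_mod_cast (show 10 ≤ L by omega)
  have r1 : 1 ≤ 2 ^ r := Nat.one_le_two_pow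
  have r2 : 2 ^ r * (2 * (a * s + 1) + k + 1) ≤ L := by
    rcases le_total (2 ^ r) (2 * (a * s + 1) + k + 1) with b | b
    · exact (Nat.mul_le_mul_right _ b).trans (pow_two (2 * (a * s + 1) + k + 1) ▸ l4)
    · exact (Nat.mul_le_mul_left _ b).trans hr
  have r3 : (2 : ℝ) ^ r ≤ L := by exact_mod_cast (Nat.le_mul_of_pos_right _ r1).trans hr
  have p1 : Fintype.card (Pt j L) * (1 / (Q + 1 : ℝ)) ≤ 1 / (L : ℝ) ^ 2 := by
    rw [hQ', mul_one_div, div_le_div_iff₀ (by positivity) (by positivity), one_mul,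
      pow_add _ (4 * j + 3) 2]
    gcongr
    exact_mod_cast n2
  refine (core (Sip := Sip f₀) (L := L) (gr := gr ev) (j := k) (w := 2 ^ h + 1) (s := σ)
    (ρ := (Q + 1) ^ σ * L) (Q := Q) (w₀ := a * s + 1) (ε := (2 / 3) ^ L) (θ := 4 / (L : ℝ) ^ 2)
    (m := (L ^ a) ^ (u * v)) (fun x _ _ h => (Prod.ext_iff.1 h).1) (fun x x' hx => by
      obtain ⟨i, hi⟩ := Function.ne_iff.1 hx
      refine Nat.le_of_lt_succ (lt_of_le_of_lt ((card_le_card (t := (univ.filter fun y =>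
        ev (x i) y = ev (x' i) y).image (gr ev x)) fun p hp => ?_).trans card_image_le)
        (hev _ _ hi))
      obtain ⟨y, -, rfl⟩ := mem_image.1 (mem_inter.1 hp).1
      obtain ⟨y', -, b⟩ := mem_image.1 (mem_inter.1 hp).2
      obtain ⟨rfl, b⟩ := Prod.ext_iff.1 b
      exact mem_image_of_mem _ (mem_filter.2 ⟨mem_univ _, (congrFun b i).symm⟩))
    (fun R hR => sip_few f₀ R (by convert hR)) (Even j) e g2 g3 g4 g5 g6
    (fun Y => Iff.trans (by simp [Hd, ind]) (g7 (ind e Y))) le_rfl (by positivity)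
    (by positivity) (pow_small (by positivity) (pow_le_one₀ (by positivity) (by
      rw [div_le_one (by positivity)]
      simp)) (by
      rw [Nat.cast_pow, ← mul_pow]
      push_cast
      rw [mul_one_div_cancel (by positivity), one_pow]
      norm_num) L) (by omega) (hσ ▸ Nat.mul_le_mul_left _ k.le_succ)
    ((gam_le g1).trans (by rw [pow_mul, hv]; exact Nat.pow_le_pow_left s1 _))
    ?_ ?_ ?_ ?_ ?_).elim fun Φ ⟨f1, f2⟩ => ?_
  · have b1 : (((n + 1) ^ σ : ℕ) : ℝ) ≤ L ^ (a * (k + 2) * σ) := by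
      rw [pow_mul, pow_mul]
      exact_mod_cast Nat.pow_le_pow_left n1 σ
    rw [hn, Nat.cast_mul (σ + 1)]
    refine le_trans (b := (L : ℝ) * (L ^ (a * (u * v)) * ((σ + 1) * L ^ (a * (k + 2) * σ) *
      (2 / 3) ^ L))) ?_ ?_
    · rw [pow_mul (L : ℝ) a (u * v)]
      push_cast at b1 ⊢
      gcongr
    · rw [pow_add, pow_add, pow_one] at l2
      linarith
  · rw [hX]
    refine le_trans (b := (L : ℝ) ^ (a * s) * (1 / (L : ℝ) ^ 2) ^ (a * s + 1)) ?_ ?_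
    · rw [pow_mul]
      push_cast
      gcongr
    · rw [pow_succ, ← mul_assoc, ← mul_pow]
      have b1 : (L : ℝ) * (1 / L ^ 2) ≤ 1 := by
        rw [mul_one_div, div_le_one (by positivity)]
        nlinarith
      have b2 : 1 / (L : ℝ) ^ 2 ≤ 1 / 4 := one_div_le_one_div_of_le (by norm_num) (by nlinarith)
      exact (mul_le_of_le_one_left (by positivity) (pow_le_one₀ (by positivity) b1)).trans b2
  · rw [div_le_iff₀ (by positivity)]
    exact p1.trans (le_of_eq (by ring))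
  · have b1 : ((Q + 1) ^ σ * L * σ + 1) ^ σ ≤ L ^ a := by
      refine le_trans (Nat.pow_le_pow_left (show _ ≤ L ^ ((4 * j + 5) * σ + 2) from ?_) _) ?_
      · rw [pow_add, pow_mul, hQ, pow_two, ← mul_assoc]
        have c1 : 1 ≤ (Q + 1) ^ σ * L := Nat.mul_pos (by positivity) (by omega)
        have c2 := Nat.mul_le_mul_left ((Q + 1) ^ σ * L) (show σ + 1 ≤ L by omega)
        nlinarith
      · rw [← pow_mul]
        exact Nat.pow_le_pow_right (by omega) (by omega)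
    have b2 : 2 ^ (r + 1) * (2 ^ r * (L ^ a) ^ (u * v)) * (((Q + 1) ^ σ * L * σ + 1) ^ σ) ^ (k + 1) *
        L ≤ (L ^ a) ^ s := by
      refine le_trans (b := L ^ a * (L ^ a) ^ (u * v) * (L ^ a) ^ (k + 1) * L ^ a) ?_ ?_
      · rw [← mul_assoc]
        gcongr
        · rw [pow_succ]
          nlinarith
        · nlinarith
      · rw [← pow_succ', ← pow_add, ← pow_succ]
        exact Nat.pow_le_pow_right (by positivity) (by omega)
    rw [hX, mul_add, ← mul_assoc, ← mul_assoc, mul_one_div]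
    have b3 : (2 : ℝ) ^ (r + 1) * (2 ^ r * (L ^ a) ^ (u * v) : ℕ) *
        ((((Q + 1) ^ σ * L * σ + 1) ^ σ : ℕ) : ℝ) ^ (k + 1) / ((L ^ a) ^ s : ℕ) ≤ 1 / 10 := by
      refine le_trans ?_ (one_div_le_one_div_of_le (by norm_num) L1)
      rw [div_le_div_iff₀ (by positivity) (by positivity), one_mul]
      exact_mod_cast b2
    have b4 : (2 : ℝ) ^ (r + 1) * (4 / L ^ 2) ≤ 8 / 10 := by
      rw [pow_succ, ← mul_div_assoc, div_le_div_iff₀ (by positivity) (by positivity)]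
      nlinarith
    linarith
  · rw [pow_succ]
    nlinarith
  · refine l1 f₀ Φ (f1.trans (le_trans (Nat.mul_le_mul Nat.lt_two_pow_self.le (by omega)) r2))
      fun β P p1 p2 => (f2 β P p1 p2).mono le_rfl ?_
    rw [pow_mul, pow_mul, pow_add]
    exact Nat.mul_le_mul (Nat.pow_le_pow_left (by omega) _) (Nat.pow_le_pow_left s1 _)

theorem few_not (A : ℕ) {b d : ℕ} (hd : 4 * b ≤ d) : ∀ᶠ L : ℕ in atTop, ∀ n r, n + 1 ≤ L ^ b →
    r ≤ A + Nat.log 2 (n + 1) / d → 2 ^ r * 2 ^ r ≤ L := by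
  filter_upwards [eventually_ge_atTop ((2 ^ A) ^ 4)] with L hL n r h1 h2
  have a1 : (2 ^ (Nat.log 2 (n + 1) / d)) ^ 4 ≤ L := by
    rcases Nat.eq_zero_or_pos b with rfl | hb
    · obtain rfl : n = 0 := by simpa using h1
      simpa using (Nat.one_le_pow _ _ (by positivity)).trans hL
    refine (Nat.pow_le_pow_iff_left hb.ne').1 (le_trans ?_ h1)
    rw [← pow_mul, ← pow_mul]
    exact (Nat.pow_le_pow_right two_pos ((Nat.mul_le_mul_left _ hd).trans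
      (Nat.div_mul_le_self _ _))).trans (Nat.pow_log_le_self 2 n.succ_ne_zero)
  refine (Nat.pow_le_pow_iff_left two_ne_zero).1 ?_
  calc _ = (2 ^ r) ^ 4 := by ring
    _ ≤ (2 ^ (A + Nat.log 2 (n + 1) / d)) ^ 4 := by gcongr; omega
    _ ≤ L * L := by
      rw [pow_add, mul_pow]
      exact Nat.mul_le_mul hL a1
    _ = _ := (pow_two L).symm

theorem wn_mono (R : ℕ → ℕ → ℕ) (t : ℕ) : WN R t ⊆ WN R (t + 1) := fun _ ⟨f, h, c, b⟩ =>
  ⟨f, h, c, fun k n =>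
    let ⟨N, k', r, G, ψ, g, b1, b2, b3, b4, b5, b6, b7, b8⟩ := b k n
    ⟨N, k', r, G, ψ, g, b1, b2, b3, b4, b5, b6, b7.mono 0 1, b8⟩⟩

theorem sep {R : ℕ → ℕ → ℕ} (hR : ∀ k, ∃ A, ∀ n, R k n ≤ A + Nat.log 2 (n + 1) / (k + 1) ^ 5)
    (j : ℕ) : ∃ 𝓛 ∈ WN R (j + 2), 𝓛 ∉ WN R (j + 1) := by
  have : ∀ k n, ∃ F : Fn (Fin n), Rp (j + 2) (j + 4) ((k + 1) * (n + 1) ^ 1) (k + 1) 0 F ∧
      ∀ L : ℕ, L.Prime → Fintype.card (Pos j L k (L ^ aa j k)) = n → ∃ (f₀ : Fin j → Ix L)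
        (ev : (Fin k → Fin (L ^ aa j k)) → Pt j L → Fin (L ^ aa j k))
        (e : Fin n ≃ Pos j L k (L ^ aa j k)),
        (∀ x x', x ≠ x' → (univ.filter fun y => ev x y = ev x' y).card < k) ∧
          F = Hd f₀ ev e := fun k n => by
    by_cases h : ∃ L : ℕ, L.Prime ∧ Fintype.card (Pos j L k (L ^ aa j k)) = n
    · obtain ⟨L, h1, h2⟩ := h
      have h0 := h1.pos
      obtain ⟨ev, hev⟩ := design (k := k) (a := aa j k) h1 (by unfold aa; omega) (Pt j L)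
        ((pt_le j h1.two_le).trans (Nat.pow_le_pow_right h0 (by unfold aa; omega)))
      refine ⟨_, rp_hd h0 (by positivity) (fun _ => (⟨0, h0⟩, ⟨0, by positivity⟩)) ev
        (Fintype.equivFinOfCardEq h2).symm, fun L' _ h3 => ?_⟩
      obtain rfl : L = L' := (pos_mono j k).injective (h2.trans h3.symm)
      exact ⟨_, ev, _, hev, rfl⟩
    · exact ⟨_, rp_false (Nat.mul_pos k.succ_pos (by positivity)), fun L a b => absurd ⟨L, a, b⟩ h⟩
  choose F h1 h2 using this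
  have hm : ∀ k n (x : Fin n → Bool), (List.ofFn x, k) ∈ {p : List Bool × ℕ |
      ∃ (n : ℕ) (x : Fin n → Bool), p.1 = List.ofFn x ∧ F p.2 n x} ↔ F k n x := fun k n x => by
    refine ⟨fun ⟨n', x', a, b⟩ => ?_, fun a => ⟨n, x, rfl, a⟩⟩
    cases List.ofFn_inj'.1 a
    exact b
  refine ⟨{p | ∃ (n : ℕ) (x : Fin n → Bool), p.1 = List.ofFn x ∧ F p.2 n x},
    ⟨fun k => k + 1, j + 4, 1, fun k n => ?_⟩, fun ⟨f, h, c, b⟩ => ?_⟩
  · simp only [hm]
    obtain ⟨N, k', G, ψ, g, b1, b2, b3⟩ := h1 k n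
    exact ⟨N, k', 0, G, ψ, g, b1, b2, Nat.zero_le _, b3⟩
  · simp only [hm] at b
    obtain ⟨k, k1, k2, k3⟩ : ∃ k, (2 * c + 1) * (h + 5 * 2 ^ h + 3) + 2 ≤ k ∧
        (4 * j + 7) * (2 ^ h + 1) ^ 2 ≤ k ∧ 16 * j + 16 ≤ k :=
      ⟨_, le_max_left _ (max _ _), le_max_of_le_right (le_max_left _ _),
        le_max_of_le_right (le_max_right _ _)⟩
    obtain ⟨A, hA⟩ := hR (k + 1)
    obtain ⟨M, hM⟩ := eventually_atTop.1 ((lb j h c (f (k + 1)) k1 k2).and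
      (few_not A (b := aa j (k + 1) * (k + 1 + 1)) (d := (k + 1 + 1) ^ 5) (by
        rw [← mul_assoc, pow_succ _ 4, aa]
        refine Nat.mul_le_mul_right _ ?_
        generalize hK : k + 1 = K
        nlinarith [Nat.zero_le (K ^ 4), Nat.zero_le (K ^ 2)])))
    obtain ⟨L, l1, l2⟩ := Nat.exists_infinite_primes M
    obtain ⟨f₀, ev, e, c1, c2⟩ := h2 (k + 1) _ L l2 rfl
    obtain ⟨N, k', r, G, ψ, g, b1, b2, b3, b4⟩ := b (k + 1) _
    refine (hM L l1).1 f₀ ev c1 _ e r ((hM L l1).2 _ r ?_ (b3.trans (hA _)))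
      ⟨N, k', G, ψ, g, b1, b2, c2 ▸ b4⟩
    rw [pow_mul]
    exact pos_le j (k + 1) l2.two_le

end Pool.Agent.P.MP_d1c5a4_lc.NL
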