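import Pool.Agent.P.MP_d1c5a4_lc.NL.Sim

/-! Removal of the NOT gates. -/

namespace Pool.Agent.P.MP_d1c5a4_lc.NL

open Finset Classical

variable {Ω : Type} [DecidableEq Ω] {n w : ℕ}

/-- The input that belongs to a set of positions. -/
def ind (ε : Fin n → Ω) (Y : Finset Ω) : Fin n → Bool := fun i => decide (ε i ∈ Y)

/-- The circuit with the NOT gates replaced by constants. -/
def LD (w : ℕ) (ε : Fin n → Ω) (r : ℕ) (G : List (Fn (Fin n)))
    (lf : Fn (Fin n) → Finset ℕ → MF Ω) (ν : ℕ → Fn (Fin n)) : Prop :=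
  (∀ c, MS w (Vr Ω) G.length {F | ∃ g ∈ G, F = lf g c}) ∧
  (∀ i < r, ν i ∈ G ∧ ∀ c Y, (∀ i' < i, i' ∈ c ↔ ¬ ν i' (ind ε Y)) →
    (lf (ν i) c Y ↔ ν i (ind ε Y))) ∧
  ∀ c Y, (∀ i < r, i ∈ c ↔ ¬ ν i (ind ε Y)) → ∀ g ∈ G, (lf g c Y ↔ g (ind ε Y))

theorem LD.step {ε : Fin n → Ω} {r : ℕ} {G : List (Fn (Fin n))}
    {lf : Fn (Fin n) → Finset ℕ → MF Ω} {ν : ℕ → Fn (Fin n)} (h : LD w ε r G lf ν)
    (g₀ : Fn (Fin n)) (ℓ : Finset ℕ → MF Ω) {r' : ℕ} {ν' : ℕ → Fn (Fin n)} (hr : r ≤ r')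
    (h1 : ∀ i < r, ν' i = ν i) (h2 : ∀ i < r', i < r ∨ (i = r ∧ ν' i ∈ G))
    (h3 : ∀ c, Gt w (Vr Ω ∪ {F | ∃ g ∈ G, F = lf g c}) (ℓ c))
    (h4 : ∀ c Y, (∀ i < r', i ∈ c ↔ ¬ ν' i (ind ε Y)) → (∀ g ∈ G, lf g c Y ↔ g (ind ε Y)) →
      (ℓ c Y ↔ g₀ (ind ε Y))) :
    ∃ lf' ν', LD w ε r' (g₀ :: G) lf' ν' := by
  obtain ⟨a1, a2, a3⟩ := h
  refine ⟨fun g => if g ∈ G then lf g else ℓ, ν', fun c => ((a1 c).base.ins (h3 c)).sub ?_,
    fun i hi => ?_, fun c Y hc g hg => ?_⟩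
  · rintro _ ⟨g, -, rfl⟩
    by_cases hG : g ∈ G
    · exact Or.inr (Or.inr ⟨g, hG, by simp only [hG, if_true]⟩)
    · exact Or.inl (by simp only [hG, if_false])
  · rcases h2 i hi with h | ⟨rfl, h⟩
    · obtain ⟨b1, b2⟩ := a2 i h
      rw [h1 i h]
      refine ⟨List.mem_cons_of_mem _ b1, fun c Y hc => ?_⟩
      simp only [b1, if_true]
      exact b2 c Y fun i' hi' => h1 i' (hi'.trans h) ▸ hc i' hi'
    · refine ⟨List.mem_cons_of_mem _ h, fun c Y hc => ?_⟩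
      simp only [h, if_true]
      exact a3 c Y (fun i' hi' => h1 i' hi' ▸ hc i' hi') _ h
  · have := a3 c Y fun i hi => h1 i hi ▸ hc i (hi.trans_le hr)
    by_cases hG : g ∈ G
    · simp only [hG, if_true]
      exact this g hG
    · obtain rfl := (List.mem_cons.1 hg).resolve_right hG
      simp only [hG, if_false]
      exact h4 c Y hc this

theorem lift (hw : 2 ≤ w) (ε : Fin n → Ω) {r : ℕ} {G : List (Fn (Fin n))} (h : Ckt r G) :
    ∃ lf ν, LD w ε r G lf ν := by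
  have two : ∀ {S : Set (MF Ω)} {f g k : MF Ω}, f ∈ S → g ∈ S →
      (∀ Y Y', (f Y → f Y') → (g Y → g Y') → k Y → k Y') → Gt w S k := fun {S f g k} a b c =>
    ⟨{f, g}, by simp [a, b], card_le_two.trans hw, fun Y Y' h => c Y Y' (h f (by simp))
      (h g (by simp))⟩
  induction h with
  | nil => exact ⟨fun _ _ _ => True, fun _ _ => True, fun c => show _ ⊆ Vr Ω by simp,
      by simp, by simp⟩
  | var i _ ih =>
    obtain ⟨lf, ν, h⟩ := ih
    exact h.step _ (fun _ Y => ε i ∈ Y) le_rfl (fun _ _ => rfl) (fun _ => Or.inl)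
      (fun c => two (Or.inl ⟨ε i, rfl⟩) (Or.inl ⟨ε i, rfl⟩) fun _ _ a _ => a)
      fun c Y _ _ => by simp [ind]
  | cst p _ ih =>
    obtain ⟨lf, ν, h⟩ := ih
    exact h.step _ (fun _ _ => p) le_rfl (fun _ _ => rfl) (fun _ => Or.inl) (fun c => Gt.cst p)
      fun c Y _ _ => Iff.rfl
  | @and r G f g _ hf hg ih =>
    obtain ⟨lf, ν, h⟩ := ih
    exact h.step _ (fun c Y => lf f c Y ∧ lf g c Y) le_rfl (fun _ _ => rfl) (fun _ => Or.inl)
      (fun c => two (Or.inr ⟨f, hf, rfl⟩) (Or.inr ⟨g, hg, rfl⟩) fun _ _ => And.imp)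
      fun c Y _ a => and_congr (a f hf) (a g hg)
  | @or r G f g _ hf hg ih =>
    obtain ⟨lf, ν, h⟩ := ih
    exact h.step _ (fun c Y => lf f c Y ∨ lf g c Y) le_rfl (fun _ _ => rfl) (fun _ => Or.inl)
      (fun c => two (Or.inr ⟨f, hf, rfl⟩) (Or.inr ⟨g, hg, rfl⟩) fun _ _ => Or.imp)
      fun c Y _ a => or_congr (a f hf) (a g hg)
  | @not r G f _ hf ih =>
    obtain ⟨lf, ν, h⟩ := ih
    refine h.step _ (fun c _ => r ∈ c) (ν' := fun i => if i = r then f else ν i) r.le_succ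
      (fun i hi => if_neg hi.ne) (fun i hi => (Nat.lt_succ_iff_lt_or_eq.1 hi).imp_right
        fun e => ⟨e, by simpa only [e, if_true]⟩) (fun c => Gt.cst _) fun c Y a _ => ?_
    simpa only [if_true] using a r r.lt_succ_self

theorem search [Fintype Ω] {r j : ℕ} {U : Finset Ω} {B : ℕ → Finset Ω} (hB : Monotone B)
    (ev : Prop) {F : ℕ → Finset ℕ → MF Ω} {T : ℕ → MF Ω}
    (hF : ∀ i < r, ∀ c Y, (∀ i' < i, i' ∈ c ↔ ¬ T i' Y) → (F i c Y ↔ T i Y))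
    (hm : ∀ i < r, ∀ c, Mo (F i c))
    (hs : ∀ i < r, ∀ c ⊆ range r, ∀ l, l + 1 < 2 ^ (r + 1) → Sw j U (B l) (B (l + 1)) (F i c))
    (i d : ℕ) (hd : i + d = r) : ∃ c ⊆ range i, ∃ (u : ℕ) (Φ : Finset Ω),
      u + 2 ^ (d + 1) ≤ 2 ^ (r + 1) ∧ Φ.card ≤ i * j ∧ ∀ l, u ≤ l → l < u + 2 ^ (d + 1) →
        ∀ Y ⊆ U, (∀ p ∈ Φ, p ∈ U → (p ∈ Y ↔ ev)) → ∀ i' < i, (i' ∈ c ↔ ¬ T i' (B l ∪ Y)) := by
  induction i generalizing d with
  | zero => exact ⟨∅, by simp, 0, ∅, by simp [← hd], by simp, by simp⟩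
  | succ i ih =>
    obtain ⟨c, c1, u, Φ, a1, a2, a3⟩ := ih (d + 1) (by omega)
    obtain ⟨v, hv⟩ : ∃ v, 2 ^ (d + 1) = v + 1 := ⟨_, (Nat.succ_pred_eq_of_pos (by positivity)).symm⟩
    rw [pow_succ 2 (d + 1), hv] at a1 a3
    rw [hv]
    have hi : i < r := by omega
    obtain ⟨D, d1, d2⟩ := hs i hi c (c1.trans (range_mono hi.le)) (u + v) (by omega)
    have e1 : ∀ Y ⊆ U, (∀ p ∈ Φ ∪ D, p ∈ U → (p ∈ Y ↔ ev)) →
        Y ∩ D = (U.filter fun _ => ev) ∩ D := fun Y hY h => by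
      ext p
      simp only [mem_inter, mem_filter]
      exact and_congr_left fun hp => ⟨fun a => ⟨hY a, (h p (mem_union_right _ hp) (hY a)).1 a⟩,
        fun a => (h p (mem_union_right _ hp) a.1).2 a.2⟩
    have e2 : (Φ ∪ D).card ≤ (i + 1) * j := (card_union_le _ _).trans (by rw [add_mul]; omega)
    have e3 : i ∉ c := fun h => lt_irrefl _ (mem_range.1 (c1 h))
    by_cases ha : F i c (B (u + v + 1) ∪ (U.filter fun _ => ev) ∩ D)
    · refine ⟨c, c1.trans (range_mono i.le_succ), u + v + 1, Φ ∪ D, by omega, e2,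
        fun l l1 l2 Y hY h i' hi' => ?_⟩
      have e4 := a3 l (by omega) (by omega) Y hY fun p hp => h p (mem_union_left _ hp)
      rcases Nat.lt_succ_iff_lt_or_eq.1 hi' with h' | rfl
      · exact e4 i' h'
      refine iff_of_false e3 (not_not.2 ((hF _ hi c _ e4).1 (hm _ hi c _ _ ?_ ha)))
      rw [← e1 Y hY h]
      exact union_subset_union (hB l1) inter_subset_left
    · refine ⟨insert i c, ?_, u, Φ ∪ D, by omega, e2, fun l l1 l2 Y hY h i' hi' => ?_⟩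
      · rw [range_add_one]
        exact insert_subset_insert _ c1
      have e4 := a3 l (by omega) (by omega) Y hY fun p hp => h p (mem_union_left _ hp)
      rcases Nat.lt_succ_iff_lt_or_eq.1 hi' with h' | rfl
      · rw [mem_insert, or_iff_right h'.ne]
        exact e4 i' h'
      refine iff_of_true (mem_insert_self _ _) fun h' => ha ?_
      rw [← e1 Y hY h]
      exact d2 Y hY (hm _ hi c _ _ (union_subset_union (hB (by omega)) subset_rfl)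
        ((hF _ hi c _ e4).2 h'))

end Pool.Agent.P.MP_d1c5a4_lc.NL
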