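import Pool.Agent.P.MP_d1c5a4_lc.NL.Clo
import Pool.Agent.P.MP_d1c5a4_lc.NL.Defs

/-! A formula of weft `t` lies between two formulas of depth `t` over juntas. -/

namespace Pool.Agent.P.MP_d1c5a4_lc.NL

open Finset Classical

variable {β ι : Type}

/-- A formula of depth `t` over juntas lies between `lo` and `hi`. -/
def Sd (W S a t : ℕ) (lo hi : Fn β) : Prop :=
  ∃ g, NN (W * 2 ^ a) (S ^ 2 ^ a) t g ∧ ∀ y, (lo y → g y) ∧ (g y → hi y)

/-- A junta lies between `lo` and `hi`. -/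
def Sj (W : ℕ) (lo hi : Fn β) : Prop := ∃ g, Jun W g ∧ ∀ y, (lo y → g y) ∧ (g y → hi y)

section
variable {W W' S a a' t : ℕ} {lo hi lo' hi' : Fn β}

theorem Sj.not (h : Sj W lo hi) : Sj W (fun y => ¬ hi y) fun y => ¬ lo y :=
  let ⟨_, h1, h2⟩ := h
  ⟨_, h1.not, fun y => ⟨fun a b => a ((h2 y).2 b), fun a b => a ((h2 y).1 b)⟩⟩

theorem Sj.imp (h : Sj W lo hi) (hW : W ≤ W') (h1 : ∀ y, lo' y → lo y) (h2 : ∀ y, hi y → hi' y) :
    Sj W' lo' hi' :=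
  let ⟨g, a, b⟩ := h
  ⟨g, a.mono hW, fun y => ⟨fun c => (b y).1 (h1 y c), fun c => h2 y ((b y).2 c)⟩⟩

theorem Sj.all (T : Finset ι) {lo hi : ι → Fn β} (h : ∀ i ∈ T, Sj W (lo i) (hi i)) :
    Sj (T.card * W) (fun y => ∀ i ∈ T, lo i y) fun y => ∀ i ∈ T, hi i y := by
  choose! g h1 h2 using h
  exact ⟨fun y => ∀ i ∈ T, g i y, Jun.of_det T h1 fun x y h a i hi => (h i hi).1 (a i hi),
    fun y => ⟨fun a i hi => (h2 i hi y).1 (a i hi), fun a i hi => (h2 i hi y).2 (a i hi)⟩⟩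

theorem Sj.ex (T : Finset ι) {lo hi : ι → Fn β} (h : ∀ i ∈ T, Sj W (lo i) (hi i)) :
    Sj (T.card * W) (fun y => ∃ i ∈ T, lo i y) fun y => ∃ i ∈ T, hi i y :=
  (Sj.all T fun i hi => (h i hi).not).not.imp le_rfl (fun _ ⟨i, a, b⟩ c => c i a b)
    fun y a => by simpa using a

theorem Sd.imp (h : Sd W S a t lo hi) (h1 : ∀ y, lo' y → lo y) (h2 : ∀ y, hi y → hi' y) :
    Sd W S a t lo' hi' :=
  let ⟨g, a, b⟩ := h
  ⟨g, a, fun y => ⟨fun c => (b y).1 (h1 y c), fun c => h2 y ((b y).2 c)⟩⟩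

variable (hS : 2 ≤ S)
include hS

theorem Sj.sd (h : Sj W lo hi) : Sd W S a t lo hi :=
  let ⟨g, h1, h2⟩ := h
  ⟨g, NN.of_jun (Nat.one_le_pow _ _ (by omega))
    (h1.mono (Nat.le_mul_of_pos_right _ (by positivity))), h2⟩

theorem Sd.up (h : Sd W S a t lo hi) : Sd W S a (t + 1) lo hi :=
  let ⟨g, h1, h2⟩ := h
  ⟨g, h1.up (Nat.one_le_pow _ _ (by omega)), h2⟩

theorem Sd.neg (h : Sd W S a t lo hi) : Sd W S a (t + 1) (fun y => ¬ hi y) fun y => ¬ lo y :=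
  let ⟨_, h1, h2⟩ := h
  ⟨_, h1.neg (Nat.one_le_pow _ _ (by omega)),
    fun y => ⟨fun a b => a ((h2 y).2 b), fun a b => a ((h2 y).1 b)⟩⟩

theorem Sd.and_or (h : Sd W S a t lo hi) (h' : Sd W S a t lo' hi') :
    Sd W S (a + 1) t (fun y => lo y ∧ lo' y) (fun y => hi y ∧ hi' y) ∧
      Sd W S (a + 1) t (fun y => lo y ∨ lo' y) fun y => hi y ∨ hi' y := by
  obtain ⟨f, h1, h2⟩ := h
  obtain ⟨g, h3, h4⟩ := h'
  have := NN.and_or (hS.trans (Nat.le_self_pow (by positivity) S)) h1 h3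
  rw [← pow_add, ← mul_add, ← mul_two, ← pow_succ] at this
  exact ⟨⟨_, this.1, fun y => ⟨And.imp (h2 y).1 (h4 y).1, And.imp (h2 y).2 (h4 y).2⟩⟩,
    _, this.2, fun y => ⟨Or.imp (h2 y).1 (h4 y).1, Or.imp (h2 y).2 (h4 y).2⟩⟩

theorem Sd.ex (T : Finset ι) (hT : T.card ≤ S) {lo hi : ι → Fn β}
    (h : ∀ i ∈ T, Sd W S a (t + 1) (lo i) (hi i)) :
    Sd W S (a + 1) (t + 1) (fun y => ∃ i ∈ T, lo i y) fun y => ∃ i ∈ T, hi i y := by
  choose! g h1 h2 using h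
  refine ⟨_, (NN.ex T (by omega) hT h1).mono
    (Nat.mul_le_mul_left _ (Nat.pow_le_pow_right two_pos a.le_succ)) ?_, fun y =>
      ⟨fun ⟨i, b, c⟩ => ⟨i, b, (h2 i b y).1 c⟩, fun ⟨i, b, c⟩ => ⟨i, b, (h2 i b y).2 c⟩⟩⟩
  rw [← pow_succ']
  exact Nat.pow_le_pow_right (by omega) (Nat.pow_lt_pow_right one_lt_two a.lt_succ_self)

end

variable {N S : ℕ}

/-- Formulas. -/
abbrev Fm (N : ℕ) : Type := (ℕ → Prop) → Finset (Fin N) → Prop

theorem w0 {h t : ℕ} {g : Fm N} (hg : Wf S h t g) (ht : t = 0) :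
    ∃ (I : Finset ℕ) (δ : Finset (Fin N)), I.card ≤ 2 ^ h ∧ δ.card ≤ 2 ^ h ∧ ∀ z z' V V',
      (∀ i ∈ I, z i → z' i) → (∀ y ∈ δ, y ∈ V ↔ y ∈ V') → g z V → g z' V' := by
  induction hg with
  | ctl h t i => exact ⟨{i}, ∅, by simpa using Nat.one_le_two_pow, by simp,
      fun _ _ _ _ a _ => a i (mem_singleton_self i)⟩
  | pos h t y => exact ⟨∅, {y}, by simp, by simpa using Nat.one_le_two_pow,
      fun _ _ _ _ _ a => (a y (mem_singleton_self y)).1⟩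
  | neg h t y => exact ⟨∅, {y}, by simp, by simpa using Nat.one_le_two_pow,
      fun _ _ _ _ _ a b c => b ((a y (mem_singleton_self y)).2 c)⟩
  | and _ _ ih ih' =>
    obtain ⟨I, δ, a1, a2, a3⟩ := ih ht
    obtain ⟨I', δ', b1, b2, b3⟩ := ih' ht
    refine ⟨I ∪ I', δ ∪ δ', (card_union_le _ _).trans (by rw [pow_succ]; omega),
      (card_union_le _ _).trans (by rw [pow_succ]; omega), fun z z' V V' c1 c2 => And.imp ?_ ?_⟩
    · exact a3 z z' V V' (fun i hi => c1 i (mem_union_left _ hi)) fun i hi => c2 i (mem_union_left _ hi)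
    · exact b3 z z' V V' (fun i hi => c1 i (mem_union_right _ hi))
        fun i hi => c2 i (mem_union_right _ hi)
  | or _ _ ih ih' =>
    obtain ⟨I, δ, a1, a2, a3⟩ := ih ht
    obtain ⟨I', δ', b1, b2, b3⟩ := ih' ht
    refine ⟨I ∪ I', δ ∪ δ', (card_union_le _ _).trans (by rw [pow_succ]; omega),
      (card_union_le _ _).trans (by rw [pow_succ]; omega), fun z z' V V' c1 c2 => Or.imp ?_ ?_⟩
    · exact a3 z z' V V' (fun i hi => c1 i (mem_union_left _ hi)) fun i hi => c2 i (mem_union_left _ hi)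
    · exact b3 z z' V V' (fun i hi => c1 i (mem_union_right _ hi))
        fun i hi => c2 i (mem_union_right _ hi)
  | all => exact absurd ht (Nat.succ_ne_zero _)
  | ex => exact absurd ht (Nat.succ_ne_zero _)

/-- Intervals with a sign. -/
abbrev Iv (N : ℕ) : Type := Fin (N + 1) × Fin (N + 1) × Bool

/-- Membership in an interval. -/
def inI (i : Iv N) (y : Fin N) : Prop := i.1.val ≤ y.val ∧ y.val < i.2.1.val

theorem cover (V : Finset (Fin N)) (M : ℕ) (hM : M ≤ N) (hV : ∀ y ∈ V, y.val < M) :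
    ∃ 𝒞 : Finset (Iv N), 𝒞.card ≤ 2 * V.card + 1 ∧ (∀ y : Fin N, y.val < M → ∃ i ∈ 𝒞, inI i y) ∧
      ∀ i ∈ 𝒞, ∀ y, inI i y → y.val < M ∧ (y ∈ V ↔ i.2.2 = true) := by
  induction V using Finset.induction_on_max generalizing M with
  | empty =>
    refine ⟨{(0, ⟨M, by omega⟩, false)}, by simp, fun y hy => ⟨_, mem_singleton_self _,
      Nat.zero_le _, hy⟩, fun i hi y hy => ?_⟩
    obtain rfl := mem_singleton.1 hi
    exact ⟨hy.2, by simp⟩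
  | insert a V ha ih =>
    have h1 := hV a (mem_insert_self _ _)
    obtain ⟨𝒞, c1, c2, c3⟩ := ih a (by omega) ha
    have h2 : a ∉ V := fun h => lt_irrefl _ (ha a h)
    refine ⟨insert (⟨a, by omega⟩, ⟨a + 1, by omega⟩, true)
      (insert (⟨a + 1, by omega⟩, ⟨M, by omega⟩, false) 𝒞), ?_, fun y hy => ?_, fun i hi y hy => ?_⟩
    · refine (card_insert_le _ _).trans ((Nat.succ_le_succ (card_insert_le _ _)).trans ?_)
      rw [card_insert_of_notMem h2]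
      omega
    · rcases lt_trichotomy y.val a.val with h | h | h
      · obtain ⟨i, b1, b2⟩ := c2 y h
        exact ⟨i, mem_insert_of_mem (mem_insert_of_mem b1), b2⟩
      · exact ⟨_, mem_insert_self _ _, h.ge, Nat.lt_succ_of_le h.le⟩
      · exact ⟨_, mem_insert_of_mem (mem_insert_self _ _), h, hy⟩
    · rcases mem_insert.1 hi with rfl | hi
      · obtain rfl : y = a := Fin.ext (le_antisymm (Nat.le_of_lt_succ hy.2) hy.1)
        exact ⟨h1, by simp⟩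
      rcases mem_insert.1 hi with rfl | hi
      · refine ⟨hy.2, iff_of_false (fun h => ?_) (by simp)⟩
        have h3 : a.val + 1 ≤ y.val := hy.1
        rcases mem_insert.1 h with rfl | h
        · omega
        · have : y.val < a.val := ha y h
          omega
      · obtain ⟨b1, b2⟩ := c3 i hi y hy
        refine ⟨by omega, Iff.trans ⟨fun h => (mem_insert.1 h).resolve_left ?_,
          mem_insert_of_mem⟩ b2⟩
        rintro rfl
        omega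

variable {Ω : Type} {w : ℕ}

theorem chain {S₀ : Set (MF Ω)} {e : ℕ} (he : e + 1 ≤ w) (T : Finset ι) {φ : ι → MF Ω}
    (h : ∀ i ∈ T, Gt e S₀ (φ i)) : MS w S₀ (T.card + 1) {fun Y => ∀ i ∈ T, φ i Y} ∧
      MS w S₀ (T.card + 1) {fun Y => ∃ i ∈ T, φ i Y} := by
  induction T using Finset.induction_on with
  | empty =>
    exact ⟨⟨S₀, _, subset_rfl, Gt.cst True, by simp⟩, S₀, _, subset_rfl, Gt.cst False, by simp⟩
  | insert i T hi ih =>
    obtain ⟨a1, a2⟩ := ih fun j hj => h j (mem_insert_of_mem hj)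
    obtain ⟨P, p1, p2, p3⟩ := h i (mem_insert_self _ _)
    have key : ∀ F G : MF Ω, MS w S₀ (T.card + 1) {F} →
        (∀ Y Y', (F Y → F Y') → (φ i Y → φ i Y') → G Y → G Y') →
        MS w S₀ ((insert i T).card + 1) {G} := fun F G b1 b2 => by
      rw [card_insert_of_notMem hi]
      refine ⟨_, G, b1.base, ⟨insert F P, fun f hf => ?_, (card_insert_le _ _).trans (by omega),
        fun Y Y' c => b2 Y Y' (c F (mem_insert_self _ _))
          (p3 Y Y' fun f hf => c f (mem_insert_of_mem hf))⟩, by simp⟩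
      rcases mem_insert.1 hf with rfl | hf
      · exact Or.inr rfl
      · exact Or.inl (p1 f hf)
    refine ⟨key _ _ a1 fun Y Y' b1 b2 => ?_, key _ _ a2 fun Y Y' b1 b2 => ?_⟩
    · simp only [forall_mem_insert]
      exact fun h => ⟨b2 h.1, b1 h.2⟩
    · simp only [exists_mem_insert]
      exact Or.imp b2 b1

/-- The control functions. -/
def Ct (Ψ : Finset Ω → ℕ → Prop) : Set (MF Ω) := {f | ∃ i, f = fun Y => Ψ Y i}

/-- The cost of one bottom gate. -/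
def gam (N S e : ℕ) : ℕ := (e + 1) * ((N + 1) * ((N + 1) * 2) + 1) ^ e * (2 * (S + 1))

theorem bottom (Ψ : Finset Ω → ℕ → Prop) {h e : ℕ} (he : e + 1 ≤ w) (hh : 2 ^ h ≤ e)
    (Q : Finset (Fm N)) (hQ : Q.card ≤ S) (hf : ∀ f ∈ Q, Wf S h 0 f) :
    ∃ A, MS w (Ct Ψ) (gam N S e) A ∧ ∀ (β : Type) (lo hi : (β → Bool) → Finset Ω) (W K : ℕ),
      (∀ f ∈ A, Sj W (fun y => f (lo y)) fun y => f (hi y)) → ∀ V : Finset (Fin N), V.card ≤ K →
      Sj (2 ^ (2 * K + 1) * W) (fun y => ∀ f ∈ Q, f (Ψ (lo y)) V) (fun y => ∀ f ∈ Q, f (Ψ (hi y)) V) ∧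
      Sj (2 ^ (2 * K + 1) * W) (fun y => ∃ f ∈ Q, f (Ψ (lo y)) V)
        fun y => ∃ f ∈ Q, f (Ψ (hi y)) V := by
  choose! I δ h1 h2 h3 using fun f hf' => w0 (hf f hf') rfl
  let VJ : Finset (Iv N) → Finset (Fin N) := fun J => univ.filter fun y =>
    ∃ i ∈ J, i.2.2 = true ∧ inI i y
  let QJ : Finset (Iv N) → Finset (Fm N) := fun J => Q.filter fun f => ∀ y ∈ δ f, ∃ i ∈ J, inI i y
  refine ⟨{f | ∃ J ∈ univ.filter fun J : Finset (Iv N) => J.card ≤ e, f ∈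
    ({fun Y => ∀ f ∈ QJ J, f (Ψ Y) (VJ J)} ∪ {fun Y => ∃ f ∈ QJ J, f (Ψ Y) (VJ J)} : Set (MF Ω))},
    (MS.many (m := 2 * (S + 1)) _ fun J _ => ?_).le (Nat.mul_le_mul_right _
      ((small_card e).trans (by simp))), fun β lo hi W K hA V hV => ?_⟩
  · obtain ⟨a1, a2⟩ := chain (S₀ := Ct Ψ) he (QJ J) (φ := fun f Y => f (Ψ Y) (VJ J)) fun f hf' => by
      have := (mem_filter.1 hf').1
      refine ⟨(I f).image fun i Y => Ψ Y i, fun g hg => ?_, card_image_le.trans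
        ((h1 f this).trans hh), fun Y Y' c => h3 f this _ _ _ _
          (fun i hi => c _ (mem_image_of_mem _ hi)) fun _ _ => Iff.rfl⟩
      obtain ⟨i, -, rfl⟩ := mem_image.1 hg
      exact ⟨i, rfl⟩
    have := (card_filter_le Q fun f => ∀ y ∈ δ f, ∃ i ∈ J, inI i y).trans hQ
    exact (a1.union a2).le (by simp only [QJ]; omega)
  obtain ⟨𝒞, c1, c2, c3⟩ := cover V N le_rfl fun y _ => y.2
  have k1 : ∀ J ∈ 𝒞.powerset.filter (·.card ≤ e), ∀ f ∈ QJ J, ∀ z, f z V ↔ f z (VJ J) := by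
    intro J hJ f hf' z
    have b1 := mem_powerset.1 (mem_filter.1 hJ).1
    obtain ⟨b2, b3⟩ := mem_filter.1 hf'
    have : ∀ y ∈ δ f, y ∈ V ↔ y ∈ VJ J := fun y hy => by
      simp only [VJ, mem_filter, mem_univ, true_and]
      obtain ⟨i, d1, d2⟩ := b3 y hy
      exact ⟨fun h => ⟨i, d1, (c3 i (b1 d1) y d2).2.1 h, d2⟩,
        fun ⟨i, d1, d2, d3⟩ => (c3 i (b1 d1) y d3).2.2 d2⟩
    exact ⟨h3 f b2 _ _ _ _ (fun _ _ => id) this, h3 f b2 _ _ _ _ (fun _ _ => id)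
      fun y hy => (this y hy).symm⟩
  have k2 : ∀ f ∈ Q, ∃ J ∈ 𝒞.powerset.filter (·.card ≤ e), f ∈ QJ J := fun f hf' => by
    choose iv d1 d2 using fun y : Fin N => c2 y y.2
    exact ⟨(δ f).image iv, mem_filter.2 ⟨mem_powerset.2 (image_subset_iff.2 fun y _ => d1 y),
      card_image_le.trans ((h2 f hf').trans hh)⟩,
      mem_filter.2 ⟨hf', fun y hy => ⟨_, mem_image_of_mem _ hy, d2 y⟩⟩⟩
  have k3 : (𝒞.powerset.filter (·.card ≤ e)).card * W ≤ 2 ^ (2 * K + 1) * W :=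
    Nat.mul_le_mul_right _ ((card_filter_le _ _).trans (by
      rw [card_powerset]
      exact Nat.pow_le_pow_right two_pos (by omega)))
  have k4 : ∀ J ∈ 𝒞.powerset.filter (·.card ≤ e),
      J ∈ univ.filter fun J : Finset (Iv N) => J.card ≤ e :=
    fun J hJ => mem_filter.2 ⟨mem_univ _, (mem_filter.1 hJ).2⟩
  refine ⟨(Sj.all _ fun J hJ => hA _ ⟨J, k4 J hJ, Or.inl rfl⟩).imp k3
    (fun y a J hJ f hf' => (k1 J hJ f hf' _).1 (a f (mem_filter.1 hf').1)) fun y a f hf' => ?_,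
    (Sj.ex _ fun J hJ => hA _ ⟨J, k4 J hJ, Or.inr rfl⟩).imp k3 (fun y ⟨f, hf', a⟩ => ?_)
      fun y ⟨J, hJ, f, hf', a⟩ => ⟨f, (mem_filter.1 hf').1, (k1 J hJ f hf' _).2 a⟩⟩
  · obtain ⟨J, d1, d2⟩ := k2 f hf'
    exact (k1 J d1 f d2 _).2 (a J d1 f d2)
  · obtain ⟨J, d1, d2⟩ := k2 f hf'
    exact ⟨J, d1, f, d2, (k1 J d1 f d2 _).1 a⟩

/-- The conclusion of the simulation. -/
def Sim (Ψ : Finset Ω → ℕ → Prop) (h t : ℕ) (A : Set (MF Ω)) (g : Fm N) (S : ℕ) : Prop :=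
  ∀ (β : Type) (lo hi : (β → Bool) → Finset Ω) (W K S' : ℕ), 2 ≤ S' → S ≤ S' →
    (∀ f ∈ A, Sj W (fun y => f (lo y)) fun y => f (hi y)) → ∀ V : Finset (Fin N), V.card ≤ K →
    ∀ t', t ≤ t' + 1 →
      Sd (2 ^ (2 * K + 1) * W) S' h (t' + 1) (fun y => g (Ψ (lo y)) V) (fun y => g (Ψ (hi y)) V) ∧
      Sd (2 ^ (2 * K + 1) * W) S' h (t' + 1) (fun y => ¬ g (Ψ (hi y)) V)
        fun y => ¬ g (Ψ (lo y)) V

theorem sim (Ψ : Finset Ω → ℕ → Prop) {e : ℕ} (he : e + 1 ≤ w) {h t : ℕ} {g : Fm N}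
    (hg : Wf S h t g) (hh : 2 ^ h ≤ e) :
    ∃ A, MS w (Ct Ψ) ((S + 2) ^ h * gam N S e) A ∧ Sim Ψ h t A g S := by
  have hj : ∀ {β : Type} {lo hi : Fn β} {W S' h t : ℕ}, 2 ≤ S' → Sj W lo hi →
      Sd W S' h t lo hi ∧ Sd W S' h t (fun y => ¬ hi y) fun y => ¬ lo y :=
    fun a b => ⟨b.sd a, b.not.sd a⟩
  have h2 : ∀ h, (S + 2) ^ h * gam N S e + (S + 2) ^ h * gam N S e ≤
      (S + 2) ^ (h + 1) * gam N S e := fun h => by
    rw [← add_mul, pow_succ]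
    exact Nat.mul_le_mul_right _ (by nlinarith [Nat.zero_le ((S + 2) ^ h * S)])
  have h3 : ∀ h, gam N S e ≤ (S + 2) ^ h * gam N S e := fun h =>
    Nat.le_mul_of_pos_left _ (by positivity)
  have h4 : ∀ {h} {Q : Finset (Fm N)}, Q.card ≤ S → Q.card * ((S + 2) ^ h * gam N S e) ≤
      (S + 2) ^ (h + 1) * gam N S e := fun a => by
    rw [← mul_assoc, pow_succ']
    exact Nat.mul_le_mul_right _ (Nat.mul_le_mul_right _ (by omega))
  have h5 : ∀ {h}, 2 ^ (h + 1) ≤ e → 2 ^ h ≤ e := fun a =>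
    (Nat.pow_le_pow_right two_pos (Nat.le_succ _)).trans a
  induction hg with
  | ctl h t i =>
    exact ⟨Ct Ψ, MS.le (m := 0) subset_rfl (Nat.zero_le _), fun β lo hi W K S' a1 _ a2 V _ _ _ =>
      hj a1 ((a2 _ ⟨i, rfl⟩).imp (Nat.le_mul_of_pos_left _ (by positivity)) (fun _ => id)
        fun _ => id)⟩
  | pos h t y =>
    exact ⟨Ct Ψ, MS.le (m := 0) subset_rfl (Nat.zero_le _), fun β lo hi W K S' a1 _ a2 V _ _ _ =>
      hj a1 ⟨_, Jun.const _ (y ∈ V), fun _ => ⟨id, id⟩⟩⟩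
  | neg h t y =>
    exact ⟨Ct Ψ, MS.le (m := 0) subset_rfl (Nat.zero_le _), fun β lo hi W K S' a1 _ a2 V _ _ _ =>
      hj a1 ⟨_, Jun.const _ (y ∉ V), fun _ => ⟨id, id⟩⟩⟩
  | and _ _ ih ih' =>
    obtain ⟨A, a1, a2⟩ := ih (h5 hh)
    obtain ⟨A', b1, b2⟩ := ih' (h5 hh)
    refine ⟨A ∪ A', (a1.union b1).le (h2 _), fun β lo hi W K S' c1 c2 c3 V c4 t' c5 => ?_⟩
    obtain ⟨d1, d2⟩ := a2 β lo hi W K S' c1 c2 (fun f hf => c3 f (Or.inl hf)) V c4 t' c5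
    obtain ⟨d3, d4⟩ := b2 β lo hi W K S' c1 c2 (fun f hf => c3 f (Or.inr hf)) V c4 t' c5
    exact ⟨(d1.and_or c1 d3).1, (d2.and_or c1 d4).2.imp (fun _ => not_and_or.1)
      fun _ => not_and_or.2⟩
  | or _ _ ih ih' =>
    obtain ⟨A, a1, a2⟩ := ih (h5 hh)
    obtain ⟨A', b1, b2⟩ := ih' (h5 hh)
    refine ⟨A ∪ A', (a1.union b1).le (h2 _), fun β lo hi W K S' c1 c2 c3 V c4 t' c5 => ?_⟩
    obtain ⟨d1, d2⟩ := a2 β lo hi W K S' c1 c2 (fun f hf => c3 f (Or.inl hf)) V c4 t' c5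
    obtain ⟨d3, d4⟩ := b2 β lo hi W K S' c1 c2 (fun f hf => c3 f (Or.inr hf)) V c4 t' c5
    exact ⟨(d1.and_or c1 d3).2, (d2.and_or c1 d4).1.imp (fun _ => not_or.1) fun _ => not_or.2⟩
  | @all h t Q hQ hf ih =>
    rcases t with _ | t
    · obtain ⟨A, a1, a2⟩ := bottom Ψ he (h5 hh) Q hQ hf
      exact ⟨A, a1.le (h3 _), fun β lo hi W K S' c1 _ c3 V c4 _ _ =>
        hj c1 (a2 β lo hi W K c3 V c4).1⟩
    choose! A a1 a2 using fun f hf' => ih f hf' (h5 hh)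
    refine ⟨_, (MS.many Q a1).le (h4 hQ), fun β lo hi W K S' c1 c2 c3 V c4 t' c5 => ?_⟩
    obtain ⟨t', rfl⟩ : ∃ u, t' = u + 1 := ⟨t' - 1, by omega⟩
    have := Sd.ex c1 Q (hQ.trans c2) fun f hf' =>
      (a2 f hf' β lo hi W K S' c1 c2 (fun g hg => c3 g ⟨f, hf', hg⟩) V c4 t' (by omega)).2
    exact ⟨(this.neg c1).imp (fun _ a ⟨f, b, c⟩ => c (a f b)) fun _ a => by simpa using a,
      (this.up c1).imp (fun _ a => by simpa using a) fun _ ⟨f, b, c⟩ a => c (a f b)⟩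
  | @ex h t Q hQ hf ih =>
    rcases t with _ | t
    · obtain ⟨A, a1, a2⟩ := bottom Ψ he (h5 hh) Q hQ hf
      exact ⟨A, a1.le (h3 _), fun β lo hi W K S' c1 _ c3 V c4 _ _ =>
        hj c1 (a2 β lo hi W K c3 V c4).2⟩
    choose! A a1 a2 using fun f hf' => ih f hf' (h5 hh)
    refine ⟨_, (MS.many Q a1).le (h4 hQ), fun β lo hi W K S' c1 c2 c3 V c4 t' c5 => ?_⟩
    obtain ⟨t', rfl⟩ : ∃ u, t' = u + 1 := ⟨t' - 1, by omega⟩
    have := Sd.ex c1 Q (hQ.trans c2) fun f hf' =>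
      (a2 f hf' β lo hi W K S' c1 c2 (fun g hg => c3 g ⟨f, hf', hg⟩) V c4 t' (by omega)).1
    exact ⟨this.up c1, this.neg c1⟩

end Pool.Agent.P.MP_d1c5a4_lc.NL
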